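import Pool.Agent.R573.PL.Game

/-!
# Positional strategies for labelled games: the base case and the removal of good transitions
-/

set_option autoImplicit false

namespace Pool.Agent.R573.CU

open Filter

variable {S : Type} {W : Set (ℕ → S)}

/-- In every game labelled by the automaton, Eve has a positional strategy which wins from every
vertex from which she can win. -/
def LAut.P (A : LAut W) : Prop :=
  ∀ (G : Game S) (done : G.V → S → G.V → Prop) (lab : G.V → A.Q),
    (∀ v c w, G.edge v c w → ¬ done v c w → A.δ (lab v) c = some (lab w)) →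
      PosWin G done fun v => A.ρ (lab v)

/-- The base case: an automaton without loops. -/
theorem P_of_no_loops {A : LAut W} (h : ∀ q x, x ≠ [] → A.go q x ≠ some q) : A.P := by
  classical
  intro G done lab hlab
  have hany : ∀ v : G.V, ∃ e : S × G.V, G.edge v e.1 e.2 := by
    intro v
    obtain ⟨c, w, h⟩ := G.total v
    exact ⟨(c, w), h⟩
  choose any hany using hany
  refine ⟨any, fun v _ => hany v, fun p _ _ => ?_⟩
  by_contra hcon
  push Not at hcon
  obtain ⟨hd, -⟩ := hcon
  have hp : A.Path (fun n => lab (p.v n)) p.c := fun n => hlab _ _ _ (p.step n) (hd n)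
  have hA := A.fin
  obtain ⟨i, j, hij, he⟩ := Finite.exists_ne_map_eq_of_infinite fun n => lab (p.v n)
  have key : ∀ i j, i < j → lab (p.v i) = lab (p.v j) → False := by
    intro i j hij he
    have h1 := go_seg hp i (j - i)
    rw [Nat.add_sub_cancel' hij.le] at h1
    have h2 : A.go (lab (p.v i)) (seg p.c i (j - i)) = some (lab (p.v i)) := by
      rw [h1, he]
    refine h _ _ ?_ h2
    intro h3
    have h4 := seg_length p.c i (j - i)
    rw [h3] at h4
    simp at h4
    omega
  rcases lt_or_gt_of_ne hij with h1 | h1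
  · exact key i j h1 he
  · exact key j i h1 he.symm

/-- The removal of the good transitions. -/
theorem P_of_rem [Finite S] {A : LAut W} (h : A.rem.P) : A.P := by
  classical
  intro G done lab hlab
  set obj : G.V → Set (ℕ → S) := fun v => A.ρ (lab v) with hobj
  let Z : Set G.V := {v | WinsL G done obj v}
  have hcons : ∀ v c w, G.edge v c w → ¬ done v c w → der c (obj v) = obj w :=
    fun v c w he hd => A.hρ _ _ _ (hlab v c w he hd)
  let edge' : G.V → S → G.V → Prop := fun v c w => G.edge v c w ∧ (v ∈ Z → done v c w ∨ w ∈ Z)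
  have hstep : ∀ σ v, WinsBy G done obj σ v → ∀ c w, G.edge v c w →
      (G.eve v → (c, w) = σ.move [] v) → (done v c w ∨ WinsBy G done obj (σ.shiftL [(v, c)]) w) := by
    intro σ v hσ c w he h0
    by_cases hd : done v c w
    · exact Or.inl hd
    · exact Or.inr (hσ.shift he hd h0 (hcons v c w he hd).subset)
  have htot : ∀ v, ∃ c w, edge' v c w := by
    intro v
    by_cases hv : v ∈ Z
    · obtain ⟨σ, hσ⟩ := hv
      by_cases hev : G.eve v
      · refine ⟨_, _, σ.legal [] v hev, fun _ => ?_⟩
        rcases hstep σ v hσ _ _ (σ.legal [] v hev) fun _ => rfl with h1 | h1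
        · exact Or.inl h1
        · exact Or.inr ⟨_, h1⟩
      · obtain ⟨c, w, he⟩ := G.total v
        refine ⟨c, w, he, fun _ => ?_⟩
        rcases hstep σ v hσ c w he fun h => absurd h hev with h1 | h1
        · exact Or.inl h1
        · exact Or.inr ⟨_, h1⟩
    · obtain ⟨c, w, he⟩ := G.total v
      exact ⟨c, w, he, fun h => absurd h hv⟩
  let done' : G.V → S → G.V → Prop := fun v c w => done v c w ∨ A.good (lab v) c
  refine posWin_of_refine (obj := obj) Z edge' htot done' obj ?_ (fun v hv => hv) ?_ ?_ ?_
    (fun v _ => le_rfl) ?_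
  · refine h (G.withEdges edge' htot) done' lab fun v c w he hd => ?_
    have hd' : ¬ (done v c w ∨ A.good (lab v) c) := hd
    push Not at hd'
    exact rem_δ.2 ⟨hd'.2, hlab v c w he.1 hd'.1⟩
  · rintro v ⟨σ, hσ⟩
    refine winsL_of_goodAt (G := G) (fun σ v => WinsBy G done obj σ v) ?_ ?_ ?_ ?_ hσ
    · intro σ v hσ hev
      have h1 := hstep σ v hσ _ _ (σ.legal [] v hev) fun _ => rfl
      refine ⟨⟨σ.legal [] v hev, fun _ => ?_⟩, ?_⟩
      · rcases h1 with h1 | h1
        · exact Or.inl h1
        · exact Or.inr ⟨_, h1⟩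
      · rcases h1 with h1 | h1
        · exact Or.inl (Or.inl h1)
        · exact Or.inr h1
    · intro σ v hσ hev c w he
      rcases hstep σ v hσ c w he.1 fun h => absurd h hev with h1 | h1
      · exact Or.inl (Or.inl h1)
      · exact Or.inr h1
    · intro σ v _ c w he
      exact he.1
    · intro σ v hσ p hp0 hf _ hd
      rcases hσ p hp0 hf with ⟨n, hn⟩ | h1
      · exact absurd (Or.inl hn) (hd n)
      · exact h1
  · intro v hv c w he
    refine ⟨he.1, ?_⟩
    by_cases hd : done v c w
    · exact Or.inl hd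
    · exact Or.inr ⟨(he.2 hv).resolve_left hd, (hcons v c w he.1 hd).symm.subset⟩
  · rintro v ⟨σ, hσ⟩ hev c w he
    refine ⟨he, fun _ => ?_⟩
    rcases hstep σ v hσ c w he fun h => absurd h hev with h1 | h1
    · exact Or.inl h1
    · exact Or.inr ⟨_, h1⟩
  · intro p _ _ _ hd hfr
    have hp : A.Path (fun n => lab (p.v n)) p.c := fun n => hlab _ _ _ (p.step n) (hd n)
    have hA := A.fin
    have h1 : ∃ᶠ n in atTop, ∃ x : A.Q × S, A.good x.1 x.2 ∧ lab (p.v n) = x.1 ∧ p.c n = x.2 :=
      hfr.mono fun n hn => ⟨(lab (p.v n), p.c n), hn.resolve_left (hd n), rfl, rfl⟩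
    rw [frequently_exists] at h1
    obtain ⟨x, hx⟩ := h1
    obtain ⟨n, hgood, -⟩ := hx.exists
    exact hgood _ _ hp (hx.mono fun n hn => hn.2)

end Pool.Agent.R573.CU
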