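import Pool.Agent.R573.PL.Rep

/-!
# Extraction of a cycle from an infinite word
-/

set_option autoImplicit false

namespace Pool.Agent.R573.CU

open Filter

variable {S : Type}

theorem run_seg (B : Parity S) (b : B.Q) (w : ℕ → S) (t n : ℕ) :
    B.run b w (t + n) = (seg w t n).foldl B.step (B.run b w t) := by
  induction n with
  | zero => rfl
  | succ n ih =>
    rw [seg, List.foldl_append, ← ih]
    rfl

theorem pm_seg_le (B : Parity S) (b : B.Q) (w : ℕ → S) (t n d : ℕ)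
    (h : ∀ i, t ≤ i → i < t + n → B.prio (B.run b w i) (w i) ≤ d) :
    B.pm (B.run b w t) (seg w t n) ≤ d := by
  induction n with
  | zero => exact Nat.zero_le _
  | succ n ih =>
    rw [seg, pm_append, ← run_seg]
    refine max_le (ih fun i h1 h2 => h i h1 (by omega)) ?_
    exact max_le (h (t + n) (by omega) (by omega)) (Nat.zero_le _)

theorem le_pm_seg (B : Parity S) (b : B.Q) (w : ℕ → S) (t n i : ℕ) (h1 : t ≤ i)
    (h2 : i < t + n) : B.prio (B.run b w i) (w i) ≤ B.pm (B.run b w t) (seg w t n) := by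
  induction n with
  | zero => omega
  | succ n ih =>
    rw [seg, pm_append, ← run_seg]
    by_cases h3 : i < t + n
    · exact (ih h3).trans (le_max_left _ _)
    · have h4 : i = t + n := by omega
      rw [h4]
      exact (le_max_left _ _).trans (le_max_right _ _)

theorem extract {B : Parity S} [Finite B.Q] {Γ : Type} [Finite Γ] (γ : ℕ → Γ) (E : ℕ → Prop)
    (hE : ∃ᶠ n in atTop, E n) (w : ℕ → S) (b : B.Q) (d : ℕ)
    (hd1 : ∃ᶠ n in atTop, B.prio (B.run b w n) (w n) = d)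
    (hd2 : ∀ᶠ n in atTop, B.prio (B.run b w n) (w n) ≤ d) (T₀ : ℕ) :
    ∃ t, T₀ ≤ t ∧ E t ∧ ∀ N, ∃ n, N ≤ n ∧ 1 ≤ n ∧ E (t + n) ∧ γ (t + n) = γ t ∧
      B.run b w (t + n) = B.run b w t ∧ B.pm (B.run b w t) (seg w t n) = d := by
  rw [eventually_atTop] at hd2
  obtain ⟨T₁, hT₁⟩ := hd2
  have h1 : ∃ᶠ n in atTop, ∃ x : Γ × B.Q, E n ∧ γ n = x.1 ∧ B.run b w n = x.2 :=
    hE.mono fun n hn => ⟨(γ n, B.run b w n), hn, rfl, rfl⟩
  rw [frequently_exists] at h1
  obtain ⟨⟨g, s⟩, h1⟩ := h1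
  rw [frequently_atTop] at h1 hd1
  obtain ⟨t, ht, hEt, hγt, hbt⟩ := h1 (max T₀ T₁)
  refine ⟨t, by omega, hEt, fun N => ?_⟩
  obtain ⟨i, hi, hid⟩ := hd1 t
  obtain ⟨t', ht', hEt', hγt', hbt'⟩ := h1 (max (t + N) (i + 1))
  obtain ⟨n, rfl⟩ : ∃ n, t' = t + n := ⟨t' - t, by omega⟩
  refine ⟨n, by omega, by omega, hEt', hγt'.trans hγt.symm, hbt'.trans hbt.symm, ?_⟩
  apply le_antisymm
  · exact pm_seg_le B b w t n d fun j hj _ => hT₁ j (by omega)
  · rw [← hid]
    exact le_pm_seg B b w t n i hi (by omega)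

end Pool.Agent.R573.CU
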