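import Pool.Agent.R573.PL.States

/-!
# Games with winning edges and local objectives
-/

set_option autoImplicit false

namespace Pool.Agent.R573.CU

open Filter

variable {S : Type} {W : Set (ℕ → S)}

/-- The residual strategy after a history. -/
def Strategy.shiftL {G : Game S} (σ : Strategy G) (h : List (G.V × S)) : Strategy G where
  move h' v := σ.move (h ++ h') v
  legal _ v hv := σ.legal _ v hv

theorem shiftL_nil {G : Game S} (σ : Strategy G) : σ.shiftL [] = σ := rfl

theorem shiftL_shiftL {G : Game S} (σ : Strategy G) (h h' : List (G.V × S)) :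
    (σ.shiftL h).shiftL h' = σ.shiftL (h ++ h') := by
  unfold Strategy.shiftL
  congr 1
  funext l v
  rw [List.append_assoc]

/-- The history of a play. -/
def histOf {V : Type} (v : ℕ → V) (c : ℕ → S) (n : ℕ) : List (V × S) :=
  (List.range n).map fun i => (v i, c i)

theorem histOf_succ {V : Type} (v : ℕ → V) (c : ℕ → S) (n : ℕ) :
    histOf v c (n + 1) = histOf v c n ++ [(v n, c n)] := by
  unfold histOf
  rw [List.range_succ, List.map_append]
  rfl

/-- A play in front of which one edge is put. -/
def consPlay {G : Game S} {v : G.V} {c : S} (p : Play G) (he : G.edge v c (p.v 0)) : Play G where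
  v := fun n => Nat.casesOn n v p.v
  c := cons c p.c
  step := by
    rintro (- | n)
    · exact he
    · exact p.step n

theorem consPlay_hist {G : Game S} {v : G.V} {c : S} (p : Play G) (he : G.edge v c (p.v 0))
    (n : ℕ) : histOf (consPlay p he).v (consPlay p he).c (n + 1) = (v, c) :: histOf p.v p.c n := by
  unfold histOf
  rw [List.range_succ_eq_map, List.map_cons, List.map_map]
  rfl

theorem consPlay_follows {G : Game S} {v : G.V} {c : S} (p : Play G) (he : G.edge v c (p.v 0))
    {σ : Strategy G} (h0 : G.eve v → (c, p.v 0) = σ.move [] v)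
    (h : (σ.shiftL [(v, c)]).Follows p) : σ.Follows (consPlay p he) := by
  rintro (- | n) hn
  · exact h0 hn
  · have h1 := h n hn
    show (p.c n, p.v (n + 1)) =
      σ.move (histOf (consPlay p he).v (consPlay p he).c (n + 1)) (p.v n)
    rw [consPlay_hist]
    exact h1

/-- The strategy wins from the vertex: a winning edge is taken or the word of colours lies in the
objective of the vertex. -/
def WinsBy (G : Game S) (done : G.V → S → G.V → Prop) (obj : G.V → Set (ℕ → S))
    (σ : Strategy G) (v : G.V) : Prop :=
  ∀ p : Play G, p.v 0 = v → σ.Follows p →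
    (∃ n, done (p.v n) (p.c n) (p.v (n + 1))) ∨ p.c ∈ obj v

/-- Eve can win from the vertex. -/
def WinsL (G : Game S) (done : G.V → S → G.V → Prop) (obj : G.V → Set (ℕ → S)) (v : G.V) : Prop :=
  ∃ σ : Strategy G, WinsBy G done obj σ v

/-- Eve has a positional strategy which wins from every vertex from which she can win. -/
def PosWin (G : Game S) (done : G.V → S → G.V → Prop) (obj : G.V → Set (ℕ → S)) : Prop :=
  ∃ ch : G.V → S × G.V, (∀ v, G.eve v → G.edge v (ch v).1 (ch v).2) ∧
    ∀ p : Play G, WinsL G done obj (p.v 0) →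
      (∀ n, G.eve (p.v n) → (p.c n, p.v (n + 1)) = ch (p.v n)) →
        (∃ n, done (p.v n) (p.c n) (p.v (n + 1))) ∨ p.c ∈ obj (p.v 0)

/-- The residual of a winning strategy is winning. -/
theorem WinsBy.shift {G : Game S} {done : G.V → S → G.V → Prop} {obj : G.V → Set (ℕ → S)}
    {σ : Strategy G} {v : G.V} (h : WinsBy G done obj σ v) {c : S} {w : G.V} (he : G.edge v c w)
    (hd : ¬ done v c w) (h0 : G.eve v → (c, w) = σ.move [] v) (hobj : der c (obj v) ⊆ obj w) :
    WinsBy G done obj (σ.shiftL [(v, c)]) w := by
  rintro p rfl hf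
  rcases h (consPlay p he) rfl (consPlay_follows p he h0 hf) with ⟨n, hn⟩ | h1
  · rcases n with - | n
    · exact absurd hn hd
    · exact Or.inl ⟨n, hn⟩
  · exact Or.inr (hobj h1)

/-- The game with other edges. -/
def Game.withEdges (G : Game S) (edge' : G.V → S → G.V → Prop)
    (htot : ∀ v, ∃ c w, edge' v c w) : Game S where
  V := G.V
  edge := edge'
  total := htot
  eve := G.eve

/-- Transfer of winning to a game with other edges. -/
theorem winsL_of_goodAt {G : Game S} {edge' : G.V → S → G.V → Prop}
    {htot : ∀ v, ∃ c w, edge' v c w} {done' : G.V → S → G.V → Prop} {obj' : G.V → Set (ℕ → S)}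
    (GoodAt : Strategy G → G.V → Prop)
    (ha : ∀ σ v, GoodAt σ v → G.eve v → edge' v (σ.move [] v).1 (σ.move [] v).2 ∧
      (done' v (σ.move [] v).1 (σ.move [] v).2 ∨
        GoodAt (σ.shiftL [(v, (σ.move [] v).1)]) (σ.move [] v).2))
    (hb : ∀ σ v, GoodAt σ v → ¬ G.eve v → ∀ c w, edge' v c w →
      (done' v c w ∨ GoodAt (σ.shiftL [(v, c)]) w))
    (hedge : ∀ σ v, GoodAt σ v → ∀ c w, edge' v c w → G.edge v c w)
    (hc : ∀ σ v, GoodAt σ v → ∀ p : Play G, p.v 0 = v → σ.Follows p →
      (∀ n, edge' (p.v n) (p.c n) (p.v (n + 1))) →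
      (∀ n, ¬ done' (p.v n) (p.c n) (p.v (n + 1))) → p.c ∈ obj' v)
    {σ : Strategy G} {v : G.V} (h : GoodAt σ v) :
    WinsL (G.withEdges edge' htot) done' obj' v := by
  classical
  have hany : ∀ v : G.V, ∃ e : S × G.V, edge' v e.1 e.2 := by
    intro v
    obtain ⟨c, w, h⟩ := htot v
    exact ⟨(c, w), h⟩
  choose any hany using hany
  have hmv : ∀ (l : List (G.V × S)) (u : G.V), ∃ e : S × G.V, edge' u e.1 e.2 ∧
      (edge' u (σ.move l u).1 (σ.move l u).2 → e = σ.move l u) := by
    intro l u
    by_cases h1 : edge' u (σ.move l u).1 (σ.move l u).2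
    · exact ⟨σ.move l u, h1, fun _ => rfl⟩
    · exact ⟨any u, hany u, fun h2 => absurd h2 h1⟩
  choose mv hmv1 hmv2 using hmv
  suffices key : ∀ (x : ℕ → G.V) (c : ℕ → S), x 0 = v → (∀ n, edge' (x n) (c n) (x (n + 1))) →
      (∀ n, G.eve (x n) → (c n, x (n + 1)) = mv (histOf x c n) (x n)) →
      (∃ n, done' (x n) (c n) (x (n + 1))) ∨ c ∈ obj' v from
    ⟨⟨mv, fun l u _ => hmv1 l u⟩, fun p hp0 hf => key p.v p.c hp0 p.step hf⟩
  intro x c hx0 hx hf
  by_cases hd : ∃ n, done' (x n) (c n) (x (n + 1))
  · exact Or.inl hd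
  right
  push Not at hd
  have hmove : ∀ n, G.eve (x n) →
      edge' (x n) (σ.move (histOf x c n) (x n)).1 (σ.move (histOf x c n) (x n)).2 →
      (c n, x (n + 1)) = σ.move (histOf x c n) (x n) := by
    intro n hn h1
    rw [hf n hn]
    exact hmv2 _ _ h1
  have hgood : ∀ n, GoodAt (σ.shiftL (histOf x c n)) (x n) := by
    intro n
    induction n with
    | zero =>
      rw [hx0]
      exact h
    | succ n ih =>
      by_cases hn : G.eve (x n)
      · have h1 := ha _ _ ih hn
        have h2 : (σ.shiftL (histOf x c n)).move [] (x n) = σ.move (histOf x c n) (x n) := by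
          show σ.move (histOf x c n ++ []) (x n) = _
          rw [List.append_nil]
        rw [h2] at h1
        have h3 := hmove n hn h1.1
        rw [← h3] at h1
        have h4 := h1.2.resolve_left (hd n)
        rw [shiftL_shiftL, ← histOf_succ] at h4
        exact h4
      · have h4 := (hb _ _ ih hn _ _ (hx n)).resolve_left (hd n)
        rw [shiftL_shiftL, ← histOf_succ] at h4
        exact h4
  let q : Play G :=
    { v := x
      c := c
      step := fun n => hedge _ _ (hgood n) _ _ (hx n) }
  refine hc σ v h q hx0 (fun n hn => ?_) hx hd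
  refine hmove n hn ?_
  have h1 := (ha _ _ (hgood n) hn).1
  have h2 : (σ.shiftL (histOf x c n)).move [] (x n) = σ.move (histOf x c n) (x n) := by
    show σ.move (histOf x c n ++ []) (x n) = _
    rw [List.append_nil]
  rw [h2] at h1
  exact h1

/-- Transfer of a positional strategy from a game with other edges. -/
theorem posWin_of_refine {G : Game S} {done : G.V → S → G.V → Prop} {obj : G.V → Set (ℕ → S)}
    (Z : Set G.V) (edge' : G.V → S → G.V → Prop) (htot : ∀ v, ∃ c w, edge' v c w)
    (done' : G.V → S → G.V → Prop) (obj' : G.V → Set (ℕ → S))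
    (hP : PosWin (G.withEdges edge' htot) done' obj')
    (hZ : ∀ v, WinsL G done obj v → v ∈ Z)
    (hA : ∀ v, v ∈ Z → WinsL (G.withEdges edge' htot) done' obj' v)
    (hE : ∀ v, v ∈ Z → ∀ c w, edge' v c w →
      G.edge v c w ∧ (done v c w ∨ (w ∈ Z ∧ obj w ⊆ der c (obj v))))
    (hC : ∀ v, v ∈ Z → ¬ G.eve v → ∀ c w, G.edge v c w → edge' v c w)
    (hobj : ∀ v, v ∈ Z → obj' v ⊆ obj v)
    (hinf : ∀ p : Play G, p.v 0 ∈ Z → (∀ n, p.v n ∈ Z) →
      (∀ n, edge' (p.v n) (p.c n) (p.v (n + 1))) →
      (∀ n, ¬ done (p.v n) (p.c n) (p.v (n + 1))) →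
      (∃ᶠ n in atTop, done' (p.v n) (p.c n) (p.v (n + 1))) → p.c ∈ obj (p.v 0)) :
    PosWin G done obj := by
  classical
  obtain ⟨ch, hch1, hch2⟩ := hP
  have hany : ∀ v : G.V, ∃ e : S × G.V, G.edge v e.1 e.2 := by
    intro v
    obtain ⟨c, w, h⟩ := G.total v
    exact ⟨(c, w), h⟩
  choose any hany using hany
  have hch' : ∀ v : G.V, ∃ e : S × G.V, (G.eve v → G.edge v e.1 e.2) ∧ (v ∈ Z → e = ch v) := by
    intro v
    by_cases h : v ∈ Z
    · exact ⟨ch v, fun hv => (hE v h _ _ (hch1 v hv)).1, fun _ => rfl⟩
    · exact ⟨any v, fun _ => hany v, fun h2 => absurd h2 h⟩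
  choose ch' hch'1 hch'2 using hch'
  refine ⟨ch', hch'1, fun p hp hf => ?_⟩
  · by_cases hd : ∃ n, done (p.v n) (p.c n) (p.v (n + 1))
    · exact Or.inl hd
    right
    push Not at hd
    -- the play stays in `Z` and uses the new edges
    have hedge : ∀ n, p.v n ∈ Z → edge' (p.v n) (p.c n) (p.v (n + 1)) := by
      intro n hn
      by_cases hv : G.eve (p.v n)
      · have h1 := hf n hv
        rw [hch'2 _ hn] at h1
        have h2 : edge' (p.v n) (ch (p.v n)).1 (ch (p.v n)).2 := hch1 (p.v n) hv
        rw [← h1] at h2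
        exact h2
      · exact hC _ hn hv _ _ (p.step n)
    have hZn : ∀ n, p.v n ∈ Z := by
      intro n
      induction n with
      | zero => exact hZ _ hp
      | succ n ih => exact ((hE _ ih _ _ (hedge n ih)).2.resolve_left (hd n)).1
    by_cases hfr : ∃ᶠ n in atTop, done' (p.v n) (p.c n) (p.v (n + 1))
    · exact hinf p (hZn 0) hZn (fun n => hedge n (hZn n)) hd hfr
    · rw [not_frequently, eventually_atTop] at hfr
      obtain ⟨T, hT⟩ := hfr
      -- the tail of the play
      let q : Play (G.withEdges edge' htot) :=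
        { v := fun n => p.v (n + T)
          c := drop T p.c
          step := fun n => by
            have h1 := hedge (n + T) (hZn _)
            rw [Nat.add_right_comm] at h1
            exact h1 }
      have h1 := hch2 q (hA _ (hZn _)) (fun n hn => by
        have h2 := hf (n + T) hn
        rw [hch'2 _ (hZn _), Nat.add_right_comm] at h2
        exact h2)
      have h2 : drop T p.c ∈ obj (p.v T) := by
        rcases h1 with ⟨n, hn⟩ | h1
        · exfalso
          refine hT (n + T) (Nat.le_add_left _ _) ?_
          have h3 : n + T + 1 = n + 1 + T := by omega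
          rw [h3]
          exact hn
        · have h3 : obj' (q.v 0) ⊆ obj (q.v 0) := hobj _ (hZn _)
          have h4 : q.v 0 = p.v T := by
            show p.v (0 + T) = p.v T
            rw [Nat.zero_add]
          rw [← h4]
          exact h3 h1
      -- backward to the start
      have h3 : ∀ m, m ≤ T → drop (T - m) p.c ∈ obj (p.v (T - m)) := by
        intro m
        induction m with
        | zero => intro _; exact h2
        | succ m ih =>
          intro hm
          have h4 := ih (by omega)
          obtain ⟨k, hk⟩ : ∃ k, T - m = k + 1 := ⟨T - m - 1, by omega⟩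
          have hk' : T - (m + 1) = k := by omega
          rw [hk] at h4
          rw [hk']
          have h5 := ((hE _ (hZn k) _ _ (hedge k (hZn k))).2.resolve_left (hd k)).2
          have h6 : cons (p.c k) (drop (k + 1) p.c) ∈ obj (p.v k) := h5 h4
          have h7 : cons (p.c k) (drop (k + 1) p.c) = drop k p.c := by
            funext i
            rcases i with - | i
            · show p.c k = p.c (0 + k)
              rw [Nat.zero_add]
            · show p.c (i + (k + 1)) = p.c (i + 1 + k)
              congr 1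
              omega
          rw [h7] at h6
          exact h6
      have h4 := h3 T le_rfl
      rw [Nat.sub_self] at h4
      exact h4

end Pool.Agent.R573.CU
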