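import Pool.Agent.R573.PL.OneVertex

/-!
# Labelled automata

Partial deterministic automata whose states carry a residual of the objective. Good transitions are
those whose infinitely many occurrences imply the acceptance. After the removal of the good
transitions every finite word which can still be read can be extended to a losing loop.
-/

set_option autoImplicit false

namespace Pool.Agent.R573.CU

open Filter

variable {S : Type} {W : Set (ℕ → S)}

theorem resid_append (q : Set (ℕ → S)) (u v : List S) :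
    resid q (u ++ v) = resid (resid q u) v := by
  ext z
  show pre (u ++ v) z ∈ q ↔ pre u (pre v z) ∈ q
  rw [pre_append']

/-- A partial deterministic automaton whose states carry residuals of `W`. -/
structure LAut (W : Set (ℕ → S)) where
  /-- the states -/
  Q : Type
  fin : Finite Q
  /-- the partial transition function -/
  δ : Q → S → Option Q
  /-- the residual of a state -/
  ρ : Q → Set (ℕ → S)
  hρ : ∀ q c q', δ q c = some q' → der c (ρ q) = ρ q'
  hres : ∀ q, ∃ u, ρ q = resid W u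

/-- The state after a finite word, if it can be read. -/
def LAut.go (A : LAut W) : A.Q → List S → Option A.Q
  | q, [] => some q
  | q, a :: u =>
    match A.δ q a with
    | some q' => A.go q' u
    | none => none

theorem go_cons {A : LAut W} {q q'' : A.Q} {a : S} {u : List S} :
    A.go q (a :: u) = some q'' ↔ ∃ q', A.δ q a = some q' ∧ A.go q' u = some q'' := by
  show (match A.δ q a with
    | some q' => A.go q' u
    | none => none) = some q'' ↔ _
  cases h : A.δ q a with
  | none => simp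
  | some q' => simp

theorem go_append {A : LAut W} {q q'' : A.Q} {u v : List S} :
    A.go q (u ++ v) = some q'' ↔ ∃ q', A.go q u = some q' ∧ A.go q' v = some q'' := by
  induction u generalizing q with
  | nil =>
    constructor
    · intro h
      exact ⟨q, rfl, h⟩
    · rintro ⟨q', h1, h2⟩
      cases h1
      exact h2
  | cons a u ih =>
    rw [List.cons_append, go_cons]
    constructor
    · rintro ⟨q1, h1, h2⟩
      obtain ⟨q', h3, h4⟩ := ih.1 h2
      exact ⟨q', go_cons.2 ⟨q1, h1, h3⟩, h4⟩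
    · rintro ⟨q', h1, h2⟩
      obtain ⟨q1, h3, h4⟩ := go_cons.1 h1
      exact ⟨q1, h3, ih.2 ⟨q', h4, h2⟩⟩

theorem go_resid {A : LAut W} {q q' : A.Q} {u : List S} (h : A.go q u = some q') :
    resid (A.ρ q) u = A.ρ q' := by
  induction u generalizing q with
  | nil =>
    cases h
    rfl
  | cons a u ih =>
    obtain ⟨q1, h1, h2⟩ := go_cons.1 h
    show resid (der a (A.ρ q)) u = _
    rw [A.hρ q a q1 h1, ih h2]

theorem go_pow {A : LAut W} {q : A.Q} {x : List S} (h : A.go q x = some q) (n : ℕ) :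
    A.go q (pow x n) = some q := by
  induction n with
  | zero => rfl
  | succ n ih => exact go_append.2 ⟨q, h, ih⟩

/-- An infinite path of the automaton. -/
def LAut.Path (A : LAut W) (f : ℕ → A.Q) (w : ℕ → S) : Prop :=
  ∀ n, A.δ (f n) (w n) = some (f (n + 1))

theorem go_seg {A : LAut W} {f : ℕ → A.Q} {w : ℕ → S} (h : A.Path f w) (t n : ℕ) :
    A.go (f t) (seg w t n) = some (f (t + n)) := by
  induction n with
  | zero => rfl
  | succ n ih =>
    rw [seg]
    exact go_append.2 ⟨_, ih, go_cons.2 ⟨_, h (t + n), rfl⟩⟩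

/-- A transition is good if its infinitely many occurrences imply the acceptance. -/
def LAut.good (A : LAut W) (q : A.Q) (c : S) : Prop :=
  ∀ (f : ℕ → A.Q) (w : ℕ → S), A.Path f w → (∃ᶠ n in atTop, f n = q ∧ w n = c) → w ∈ A.ρ (f 0)

open Classical in
/-- The automaton without the good transitions. -/
noncomputable def LAut.rem (A : LAut W) : LAut W where
  Q := A.Q
  fin := A.fin
  δ := fun q c => if A.good q c then none else A.δ q c
  ρ := A.ρ
  hρ := by
    intro q c q' h
    split_ifs at h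
    exact A.hρ q c q' h
  hres := A.hres

theorem rem_δ {A : LAut W} {q q' : A.Q} {c : S} :
    A.rem.δ q c = some q' ↔ ¬ A.good q c ∧ A.δ q c = some q' := by
  classical
  show (if A.good q c then none else A.δ q c) = some q' ↔ _
  by_cases h : A.good q c
  · simp [h]
  · simp [h]

theorem rem_go {A : LAut W} {q q' : A.Q} {u : List S} (h : A.rem.go q u = some q') :
    A.go q u = some q' := by
  induction u generalizing q with
  | nil => exact h
  | cons a u ih =>
    obtain ⟨q1, h1, h2⟩ := go_cons.1 h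
    exact go_cons.2 ⟨q1, (rem_δ.1 h1).2, ih h2⟩

theorem exists_state (B : Parity S) (hB : W = B.lang B.start) (A : LAut W) (q : A.Q) :
    ∃ b, B.lang b = A.ρ q := by
  obtain ⟨u, hu⟩ := A.hres q
  refine ⟨u.foldl B.step B.start, ?_⟩
  rw [hu, hB, resid_lang]

/-- A bounded sequence has a largest value among those which occur infinitely often. -/
theorem exists_limsup (f : ℕ → ℕ) (M : ℕ) (hM : ∀ n, f n ≤ M) :
    ∃ d, (∃ᶠ n in atTop, f n = d) ∧ ∀ᶠ n in atTop, f n ≤ d := by
  classical
  have h1 : ∃ d, ∃ᶠ n in atTop, f n = d := by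
    have h2 : ∃ᶠ n in atTop, ∃ d : Fin (M + 1), f n = d.1 :=
      Frequently.of_forall fun n => ⟨⟨f n, by have := hM n; omega⟩, rfl⟩
    rw [frequently_exists] at h2
    obtain ⟨d, hd⟩ := h2
    exact ⟨d.1, hd⟩
  have hbd : ∀ d, (∃ᶠ n in atTop, f n = d) → d ≤ M := by
    intro d hd
    obtain ⟨n, hn⟩ := hd.exists
    rw [← hn]
    exact hM n
  obtain ⟨d₀, hd₀⟩ := h1
  have hg := Nat.findGreatest_spec (P := fun d => ∃ᶠ n in atTop, f n = d) (hbd d₀ hd₀) hd₀
  refine ⟨_, hg, ?_⟩
  by_contra hcon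
  rw [not_eventually] at hcon
  have h2 : ∃ᶠ n in atTop, ∃ d : Fin (M + 1), f n = d.1 ∧
      Nat.findGreatest (fun d => ∃ᶠ n in atTop, f n = d) M < d.1 :=
    hcon.mono fun n hn => ⟨⟨f n, by have := hM n; omega⟩, rfl, by
      show _ < f n
      omega⟩
  rw [frequently_exists] at h2
  obtain ⟨d, hd⟩ := h2
  obtain ⟨n, -, hlt⟩ := hd.exists
  have h3 : d.1 ≤ Nat.findGreatest (fun d => ∃ᶠ n in atTop, f n = d) M :=
    Nat.le_findGreatest (by have := d.2; omega) (hd.mono fun n hn => hn.1)
  omega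

theorem prio_bound (B : Parity S) [Finite B.Q] [Finite S] : ∃ M, ∀ b c, B.prio b c ≤ M := by
  have h1 : (Set.range fun x : B.Q × S => B.prio x.1 x.2).Finite := Set.finite_range _
  obtain ⟨M, hM⟩ := h1.bddAbove
  exact ⟨M, fun b c => hM ⟨(b, c), rfl⟩⟩

theorem run_lang (B : Parity S) (A : LAut W) {f : ℕ → A.Q} {w : ℕ → S} (hp : A.Path f w)
    {b : B.Q} (hb : B.lang b = A.ρ (f 0)) (t : ℕ) : B.lang (B.run b w t) = A.ρ (f t) := by
  induction t with
  | zero => exact hb
  | succ t ih =>
    show B.lang (B.step (B.run b w t) (w t)) = _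
    rw [← der_lang, ih, A.hρ _ _ _ (hp t)]

section

variable [Nonempty S] [Finite S] {B : Parity S} [Finite B.Q] (hB : W = B.lang B.start)
include hB

/-- Extraction of loops of the automaton from an infinite path. -/
theorem path_loops (A : LAut W) {f : ℕ → A.Q} {w : ℕ → S} (hp : A.Path f w) {Γ : Type} [Finite Γ]
    (γ : ℕ → Γ) (E : ℕ → Prop) (hE : ∃ᶠ n in atTop, E n) (T₀ : ℕ) :
    ∃ t, T₀ ≤ t ∧ E t ∧ ∀ N, ∃ n, N ≤ n ∧ 1 ≤ n ∧ E (t + n) ∧ γ (t + n) = γ t ∧
      f (t + n) = f t ∧ (rep (seg w t n) ∈ A.ρ (f t) ↔ w ∈ A.ρ (f 0)) := by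
  obtain ⟨b, hb⟩ := exists_state B hB A (f 0)
  obtain ⟨M, hM⟩ := prio_bound B
  obtain ⟨d, hd1, hd2⟩ := exists_limsup (fun n => B.prio (B.run b w n) (w n)) M fun n => hM _ _
  have hA := A.fin
  obtain ⟨t, ht, hEt, h1⟩ := extract (fun n => (γ n, f n)) E hE w b d hd1 hd2 T₀
  refine ⟨t, ht, hEt, fun N => ?_⟩
  obtain ⟨n, hn, hn1, hEn, hγn, hrun, hpm⟩ := h1 N
  refine ⟨n, hn, hn1, hEn, congrArg Prod.fst hγn, congrArg Prod.snd hγn, ?_⟩
  have hne : seg w t n ≠ [] := by
    intro h2
    have h3 := seg_length w t n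
    rw [h2] at h3
    simp at h3
    omega
  have h2 : (seg w t n).foldl B.step (B.run b w t) = B.run b w t := by
    rw [← run_seg, hrun]
  rw [← run_lang B A hp hb t, rep_mem_lang hne h2, hpm, ← hb]
  constructor
  · intro h3
    exact ⟨d, h3, hd1, hd2⟩
  · rintro ⟨d', hd', h3, h4⟩
    have h5 : d ≤ d' := by
      obtain ⟨n, h6, h7⟩ := (hd1.and_eventually h4).exists
      rw [h6] at h7
      exact h7
    have h6 : d' ≤ d := by
      obtain ⟨n, h6, h7⟩ := (h3.and_eventually hd2).exists
      rw [h6] at h7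
      exact h7
    rw [le_antisymm h5 h6]
    exact hd'

/-- The word can be extended to a losing loop. -/
def LAut.NG (A : LAut W) (q : A.Q) (x : List S) : Prop :=
  ∃ s, x ++ s ≠ [] ∧ A.go q (x ++ s) = some q ∧ rep (x ++ s) ∉ A.ρ q

theorem ng_of_not_good {A : LAut W} {q : A.Q} {c : S} (h : ¬ A.good q c) : A.NG q [c] := by
  unfold LAut.good at h
  push Not at h
  obtain ⟨f, w, hp, hE, hw⟩ := h
  obtain ⟨t, -, ⟨hft, hwt⟩, h1⟩ := path_loops hB A hp (fun _ => ()) _ hE 0
  obtain ⟨n, -, hn1, -, -, hfn, hrep⟩ := h1 1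
  obtain ⟨m, rfl⟩ : ∃ m, n = 1 + m := ⟨n - 1, by omega⟩
  have h2 : seg w t (1 + m) = [c] ++ seg w (t + 1) m := by
    rw [seg_add]
    congr 1
    show [] ++ [w (t + 0)] = [c]
    rw [List.nil_append, Nat.add_zero, hwt]
  rw [h2, hft] at hrep
  refine ⟨seg w (t + 1) m, by simp, ?_, fun h3 => hw (hrep.1 h3)⟩
  rw [← h2]
  have h3 := go_seg hp t (1 + m)
  rw [hfn, hft] at h3
  exact h3

theorem ng_of_rem (hW : Suffices OnePlayer W 1) {A : LAut W} {q : A.Q} (x : List S)
    (hx : x ≠ []) {q' : A.Q} (h : A.rem.go q x = some q') : A.NG q x := by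
  induction x using List.reverseRecOn generalizing q' with
  | nil => exact absurd rfl hx
  | append_singleton x c ih =>
    obtain ⟨q1, h1, h2⟩ := go_append.1 h
    obtain ⟨q2, h3, -⟩ := go_cons.1 h2
    have hng : ¬ A.good q1 c := (rem_δ.1 h3).1
    rcases List.eq_nil_or_concat x with rfl | hx'
    · cases h1
      exact ng_of_not_good hB hng
    have hxne : x ≠ [] := by
      rintro rfl
      obtain ⟨L, b, hL⟩ := hx'
      simp at hL
    obtain ⟨s, hs1, hs2, hs3⟩ := ih hxne h1
    obtain ⟨t, ht1, ht2, ht3⟩ := ng_of_not_good hB hng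
    have hgx : A.go q x = some q1 := rem_go h1
    have hgs : A.go q1 s = some q := by
      obtain ⟨q3, h4, h5⟩ := go_append.1 hs2
      rw [hgx] at h4
      cases h4
      exact h5
    have h6 : rep (s ++ x) ∉ A.ρ q1 := by
      intro h7
      rw [← go_resid hgx] at h7
      apply hs3
      rw [rep_rotate hs1]
      exact h7
    obtain ⟨u, hu⟩ := A.hres q1
    have h8 : rep ((s ++ x) ++ ([c] ++ t)) ∉ A.ρ q1 := by
      rw [hu] at h6 ht3 ⊢
      intro h9
      rcases loops_closed hW (by simp [hxne]) (by simp) h9 with h10 | h10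
      · exact h6 h10
      · exact ht3 h10
    refine ⟨t ++ s, by simp, ?_, fun h9 => h8 ?_⟩
    · have h10 : x ++ [c] ++ (t ++ s) = x ++ (([c] ++ t) ++ s) := by simp
      rw [h10]
      exact go_append.2 ⟨q1, hgx, go_append.2 ⟨q1, ht2, hgs⟩⟩
    · have h10 : (s ++ x) ++ ([c] ++ t) = s ++ (x ++ [c] ++ t) := by simp
      rw [h10, rep_rotate (by simp)]
      have h11 : (x ++ [c] ++ t) ++ s = x ++ [c] ++ (t ++ s) := by simp
      rw [h11]
      rw [← go_resid hgs] at h9
      exact h9

end

end Pool.Agent.R573.CU
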