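import Pool.Agent.R573.PL.Settle

/-!
# From the refined automaton to the automaton
-/

set_option autoImplicit false

namespace Pool.Agent.R573.CU

open Filter

/-- A rank function for the least fixed point of a monotone operator on sets. -/
theorem exists_rank {V : Type} (F : Set V →o Set V) :
    ∃ r : V → Ordinal.{0}, (∀ v ∈ F.lfp, v ∈ F {u | u ∈ F.lfp ∧ r u < r v}) ∧
      ∀ v a, v ∈ F {u | u ∈ F.lfp ∧ r u < a} → r v ≤ a := by
  classical
  obtain ⟨κ, hκ⟩ := OrdinalApprox.lfp_mem_range_lfpApprox F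
  have hle : ∀ a, OrdinalApprox.lfpApprox F ⊥ a ≤ F.lfp := fun a =>
    OrdinalApprox.lfpApprox_le_of_mem_fixedPoints F F.map_lfp bot_le a
  have hmem : ∀ v ∈ F.lfp, v ∈ F (OrdinalApprox.lfpApprox F ⊥
      (sInf {a | v ∈ F (OrdinalApprox.lfpApprox F ⊥ a)})) := by
    intro v hv
    have hne : {a | v ∈ F (OrdinalApprox.lfpApprox F ⊥ a)}.Nonempty := by
      refine ⟨κ, ?_⟩
      show v ∈ F (OrdinalApprox.lfpApprox F ⊥ κ)
      rw [hκ, F.map_lfp]
      exact hv
    exact csInf_mem hne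
  refine ⟨fun v => sInf {a | v ∈ F (OrdinalApprox.lfpApprox F ⊥ a)}, fun v hv => ?_,
    fun v a hv => ?_⟩
  · refine F.monotone ?_ (hmem v hv)
    intro u hu
    refine ⟨hle _ hu, ?_⟩
    rw [OrdinalApprox.lfpApprox] at hu
    rcases hu with hu | hu
    · exact hu.elim
    · simp only [Set.iSup_eq_iUnion, Set.mem_iUnion] at hu
      obtain ⟨b, hb, hu⟩ := hu
      have h1 : sInf {a | u ∈ F (OrdinalApprox.lfpApprox F ⊥ a)} ≤ b := csInf_le' hu
      exact h1.trans_lt hb
  · refine csInf_le' ?_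
    refine F.monotone ?_ hv
    rintro u ⟨hu1, hu2⟩
    rw [OrdinalApprox.lfpApprox]
    right
    simp only [Set.iSup_eq_iUnion, Set.mem_iUnion]
    exact ⟨_, hu2, hmem u hu1⟩

theorem eventually_const {α : Type*} [LinearOrder α] [WellFoundedLT α] (f : ℕ → α)
    (h : ∀ n, f (n + 1) ≤ f n) : ∃ N, ∀ n, N ≤ n → f n = f N := by
  obtain ⟨_, ⟨N, rfl⟩, hN⟩ := WellFounded.has_min (wellFounded_lt (α := α)) (Set.range f)
    ⟨f 0, 0, rfl⟩
  refine ⟨N, fun n hn => ?_⟩
  have h1 : f n ≤ f N := antitone_nat_of_succ_le h hn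
  rcases lt_or_eq_of_le h1 with h2 | h2
  · exact absurd h2 (hN _ ⟨n, rfl⟩)
  · exact h2

variable {S : Type} {W : Set (ℕ → S)}

theorem seg_cons (c : S) (z : ℕ → S) (n : ℕ) : seg (cons c z) 0 (n + 1) = [c] ++ seg z 0 n := by
  rw [Nat.add_comm, seg_add]
  congr 1
  refine seg_congr fun i _ => ?_
  rw [Nat.zero_add, Nat.zero_add, Nat.add_comm 1 i]
  rfl

variable [Nonempty S]

theorem SBy.step {A : LAut W} {G : Game S} {done : G.V → S → G.V → Prop} {lab : G.V → A.Q}
    (hlab : ∀ v c w, G.edge v c w → ¬ done v c w → A.δ (lab v) c = some (lab w))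
    {X : Set G.V} {F : Set (List S)} {σ : Strategy G} {v : G.V}
    (hS : SBy A G done lab X F σ v) (hF : IsSt A (lab v, F)) {c : S} {w : G.V}
    (he : G.edge v c w) (h0 : G.eve v → (c, w) = σ.move [] v) :
    done v c w ∨ w ∈ X ∨
      ([c] ∈ F ∧ SBy A G done lab X (quo [c] F) (σ.shiftL [(v, c)]) w) := by
  by_cases hd : done v c w
  · exact Or.inl hd
  by_cases hX : w ∈ X
  · exact Or.inr (Or.inl hX)
  right
  right
  have key : ∀ q : Play G, q.v 0 = w → (σ.shiftL [(v, c)]).Follows q →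
      (∃ n, [c] ++ seg q.c 0 n ∈ F ∧
        (done (q.v n) (q.c n) (q.v (n + 1)) ∨ q.v (n + 1) ∈ X)) ∨
        ((∀ n, [c] ++ seg q.c 0 n ∈ F) ∧ q.c ∈ A.ρ (lab w)) := by
    rintro q rfl hq
    rcases hS (consPlay q he) rfl (consPlay_follows q he h0 hq) with ⟨n, h1, h2⟩ | ⟨h1, h2⟩
    · rcases n with - | n
      · rcases h2 with h2 | h2
        · exact absurd h2 hd
        · exact absurd h2 hX
      · left
        refine ⟨n, ?_, h2⟩
        rw [← seg_cons]
        exact h1
    · right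
      refine ⟨fun n => ?_, ?_⟩
      · rw [← seg_cons]
        exact h1 (n + 1)
      · rw [← A.hρ _ _ _ (hlab _ _ _ he hd)]
        exact h2
  refine ⟨?_, key⟩
  obtain ⟨q, hq0, hq⟩ := (σ.shiftL [(v, c)]).exists_follows w
  rcases key q hq0 hq with ⟨n, h1, -⟩ | ⟨h1, -⟩
  · exact hF.prefix_mem h1
  · exact hF.prefix_mem (h1 0)

/-- One step of the inductive definition of the settled vertices. -/
def settleOp (A : LAut W) (G : Game S) (done : G.V → S → G.V → Prop) (lab : G.V → A.Q) :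
    Set G.V →o Set G.V where
  toFun X := {v | ∃ F, IsSt A (lab v, F) ∧ ∃ σ, SBy A G done lab X F σ v}
  monotone' := by
    rintro X X' h v ⟨F, hF, σ, hσ⟩
    exact ⟨F, hF, σ, hσ.mono h⟩

theorem P_of_ref [Finite S] {B : Parity S} [Finite B.Q] (hB : W = B.lang B.start)
    (hW : Suffices OnePlayer W 1) {A : LAut W}
    (hfin : {x : A.Q × Set (List S) | IsSt A x}.Finite) (h : (A.ref hfin).P) : A.P := by
  classical
  intro G done lab hlab
  obtain ⟨comp, hcomp⟩ := exists_comp hfin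
  obtain ⟨r, hr1, hr2⟩ := exists_rank (settleOp A G done lab)
  have hLfix : ∀ v, v ∈ settleOp A G done lab (settleOp A G done lab).lfp →
      v ∈ (settleOp A G done lab).lfp := by
    intro v hv
    rw [(settleOp A G done lab).map_lfp] at hv
    exact hv
  generalize (settleOp A G done lab).lfp = L at hr1 hr2 hLfix
  let X : G.V → Set G.V := fun v => {u | u ∈ L ∧ r u < r v}
  have hFF : ∀ v, ∃ F, IsSt A (lab v, F) ∧ (v ∈ L → (∃ σ, SBy A G done lab (X v) F σ v) ∧
      ∀ F', IsSt A (lab v, F') → (∃ σ, SBy A G done lab (X v) F' σ v) →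
        comp (lab v, F) < comp (lab v, F') ∨
          (comp (lab v, F) = comp (lab v, F') ∧ F ⊆ F')) := by
    intro v
    by_cases hv : v ∈ L
    · obtain ⟨F, hF1, hF2, hF3⟩ := exists_least_state hW hfin hcomp (lab v)
        (fun F => ∃ σ, SBy A G done lab (X v) F σ v) (hr1 v hv)
      exact ⟨F, hF1, fun _ => ⟨hF2, hF3⟩⟩
    · exact ⟨{[]}, Or.inr rfl, fun h => absurd h hv⟩
  choose FF hFF1 hFF2 using hFF
  let edge' : G.V → S → G.V → Prop := fun v c w => G.edge v c w ∧ (v ∈ L → done v c w ∨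
    (w ∈ L ∧ (r w < r v ∨ (r w = r v ∧ [c] ∈ FF v ∧
      (comp (lab w, FF w) < comp (lab v, FF v) ∨
        (comp (lab w, FF w) = comp (lab v, FF v) ∧ FF w ⊆ quo [c] (FF v)))))))
  let done' : G.V → S → G.V → Prop := fun v c w => v ∉ L ∨ done v c w ∨ r w < r v ∨
    comp (lab w, FF w) < comp (lab v, FF v) ∨ FF w ≠ quo [c] (FF v)
  -- one step of a strategy
  have hkey : ∀ σ v, v ∈ L → SBy A G done lab (X v) (FF v) σ v → ∀ c w, G.edge v c w →
      (G.eve v → (c, w) = σ.move [] v) → edge' v c w ∧ (done' v c w ∨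
        (w ∈ L ∧ SBy A G done lab (X w) (FF w) (σ.shiftL [(v, c)]) w)) := by
    intro σ v hv hσ c w he h0
    rcases hσ.step hlab (hFF1 v) he h0 with h1 | h1 | ⟨h1, h2⟩
    · exact ⟨⟨he, fun _ => Or.inl h1⟩, Or.inl (Or.inr (Or.inl h1))⟩
    · exact ⟨⟨he, fun _ => Or.inr ⟨h1.1, Or.inl h1.2⟩⟩, Or.inl (Or.inr (Or.inr (Or.inl h1.2)))⟩
    · by_cases hd : done v c w
      · exact ⟨⟨he, fun _ => Or.inl hd⟩, Or.inl (Or.inr (Or.inl hd))⟩
      have hδ := hlab v c w he hd
      have hst : IsSt A (lab w, quo [c] (FF v)) := by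
        obtain ⟨q', h3, h4⟩ := (hFF1 v).go h1
        have h5 : lab w = q' := by
          have h6 := go_single.1 h3
          dsimp only at h6
          rw [hδ] at h6
          exact Option.some.inj h6
        rw [h5]
        exact h4
      have hwPhi : w ∈ settleOp A G done lab (X v) := ⟨_, hst, _, h2⟩
      have hw : w ∈ L := hLfix w ((settleOp A G done lab).monotone (fun u hu => hu.1) hwPhi)
      have hrw : r w ≤ r v := hr2 w (r v) hwPhi
      rcases lt_or_eq_of_le hrw with h3 | h3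
      · exact ⟨⟨he, fun _ => Or.inr ⟨hw, Or.inl h3⟩⟩, Or.inl (Or.inr (Or.inr (Or.inl h3)))⟩
      · have hX : X w = X v := by
          ext u
          show u ∈ L ∧ r u < r w ↔ u ∈ L ∧ r u < r v
          rw [h3]
        have hcomp' : comp (lab w, quo [c] (FF v)) = comp (lab v, FF v) :=
          ((hcomp _ _ (hFF1 v) hst).2 ⟨[c], h1, go_single.2 hδ, rfl⟩).symm
        have h2' : SBy A G done lab (X w) (quo [c] (FF v)) (σ.shiftL [(v, c)]) w := by
          rw [hX]
          exact h2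
        have h4 := (hFF2 w hw).2 _ hst ⟨_, h2'⟩
        rw [hcomp'] at h4
        refine ⟨⟨he, fun _ => Or.inr ⟨hw, Or.inr ⟨h3, h1, h4⟩⟩⟩, ?_⟩
        by_cases hd' : done' v c w
        · exact Or.inl hd'
        · right
          refine ⟨hw, ?_⟩
          have h5 : FF w = quo [c] (FF v) := by
            by_contra hne
            exact hd' (Or.inr (Or.inr (Or.inr (Or.inr hne))))
          rw [h5]
          exact h2'
  have htot : ∀ v, ∃ c w, edge' v c w := by
    intro v
    by_cases hv : v ∈ L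
    · obtain ⟨⟨σ, hσ⟩, -⟩ := hFF2 v hv
      by_cases hev : G.eve v
      · exact ⟨_, _, (hkey σ v hv hσ _ _ (σ.legal [] v hev) fun _ => rfl).1⟩
      · obtain ⟨c, w, he⟩ := G.total v
        exact ⟨c, w, (hkey σ v hv hσ c w he fun h => absurd h hev).1⟩
    · obtain ⟨c, w, he⟩ := G.total v
      exact ⟨c, w, he, fun h => absurd h hv⟩
  let lab' : G.V → (A.ref hfin).Q := fun v => ⟨(lab v, FF v), hFF1 v⟩
  have hlab' : ∀ v c w, edge' v c w → ¬ done' v c w →
      (A.ref hfin).δ (lab' v) c = some (lab' w) := by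
    intro v c w he hd
    have hd' : ¬ (v ∉ L ∨ done v c w ∨ r w < r v ∨
      comp (lab w, FF w) < comp (lab v, FF v) ∨ FF w ≠ quo [c] (FF v)) := hd
    push Not at hd'
    obtain ⟨hv, hd1, hd2, hd3, hd4⟩ := hd'
    rcases he.2 hv with h1 | ⟨hw, h1 | ⟨-, h2, -⟩⟩
    · exact absurd h1 hd1
    · exact absurd h1 (not_lt.2 hd2)
    · exact ref_δ.2 ⟨h2, hlab v c w he.1 hd1, hd4⟩
  refine posWin_of_refine (obj := fun v => A.ρ (lab v)) L edge' htot done'
    (fun v => (A.ref hfin).ρ (lab' v)) (h (G.withEdges edge' htot) done' lab' hlab') ?_ ?_ ?_ ?_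
    (fun v _ => le_rfl) ?_
  · rintro v ⟨σ, hσ⟩
    exact settled hB hfin hlab (fun u F σ hF hS => hLfix u ⟨F, hF, σ, hS⟩) hσ
  · intro v hv
    obtain ⟨⟨σ, hσ⟩, -⟩ := hFF2 v hv
    refine winsL_of_goodAt (G := G)
      (fun σ v => v ∈ L ∧ SBy A G done lab (X v) (FF v) σ v) ?_ ?_ ?_ ?_ ⟨hv, hσ⟩
    · rintro σ v ⟨hv, hσ⟩ hev
      exact hkey σ v hv hσ _ _ (σ.legal [] v hev) fun _ => rfl
    · rintro σ v ⟨hv, hσ⟩ hev c w he
      exact (hkey σ v hv hσ c w he.1 fun h => absurd h hev).2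
    · intro σ v _ c w he
      exact he.1
    · rintro σ v ⟨hv, hσ⟩ p hp0 hf hedge hnd
      have hall : ∀ n, p.v n ∈ L ∧ r (p.v n) = r v := by
        intro n
        induction n with
        | zero =>
          rw [hp0]
          exact ⟨hv, rfl⟩
        | succ n ih =>
          rcases (hedge n).2 ih.1 with h1 | ⟨hw, h1 | ⟨h1, -⟩⟩
          · exact absurd (Or.inr (Or.inl h1)) (hnd n)
          · exact absurd (Or.inr (Or.inr (Or.inl h1))) (hnd n)
          · exact ⟨hw, h1.trans ih.2⟩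
      rcases hσ p hp0 hf with ⟨n, h1, h2 | h2⟩ | ⟨-, h1⟩
      · exact absurd (Or.inr (Or.inl h2)) (hnd n)
      · exfalso
        have h3 : r (p.v (n + 1)) < r v := h2.2
        rw [(hall (n + 1)).2] at h3
        exact lt_irrefl _ h3
      · exact h1
  · intro v hv c w he
    refine ⟨he.1, ?_⟩
    by_cases hd : done v c w
    · exact Or.inl hd
    · rcases he.2 hv with h1 | ⟨hw, -⟩
      · exact absurd h1 hd
      · exact Or.inr ⟨hw, (A.hρ _ _ _ (hlab v c w he.1 hd)).symm.subset⟩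
  · intro v hv hev c w he
    obtain ⟨⟨σ, hσ⟩, -⟩ := hFF2 v hv
    exact (hkey σ v hv hσ c w he fun h => absurd h hev).1
  · intro p _ hpL hedge hnd hfr
    by_contra hcon
    have hpath : A.Path (fun n => lab (p.v n)) p.c := fun n => hlab _ _ _ (p.step n) (hnd n)
    -- the rank is eventually constant
    obtain ⟨N₁, hN₁⟩ := eventually_const (fun n => r (p.v n)) (by
      intro n
      rcases (hedge n).2 (hpL n) with h1 | ⟨-, h1 | ⟨h1, -⟩⟩
      · exact absurd h1 (hnd n)
      · exact h1.le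
      · exact h1.le)
    have hstep1 : ∀ n, N₁ ≤ n → r (p.v (n + 1)) = r (p.v n) ∧ [p.c n] ∈ FF (p.v n) ∧
        (comp (lab (p.v (n + 1)), FF (p.v (n + 1))) < comp (lab (p.v n), FF (p.v n)) ∨
          (comp (lab (p.v (n + 1)), FF (p.v (n + 1))) = comp (lab (p.v n), FF (p.v n)) ∧
            FF (p.v (n + 1)) ⊆ quo [p.c n] (FF (p.v n)))) := by
      intro n hn
      have h0 : r (p.v (n + 1)) = r (p.v n) :=
        (hN₁ (n + 1) (by omega)).trans (hN₁ n hn).symm
      rcases (hedge n).2 (hpL n) with h1 | ⟨-, h1 | h1⟩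
      · exact absurd h1 (hnd n)
      · rw [h0] at h1
        exact absurd h1 (lt_irrefl _)
      · exact h1
    -- the component is eventually constant
    obtain ⟨N₂, hN₂⟩ := eventually_const
      (fun n => comp (lab (p.v (N₁ + n)), FF (p.v (N₁ + n)))) (by
        intro n
        rcases (hstep1 (N₁ + n) (Nat.le_add_right _ _)).2.2 with h1 | h1
        · exact h1.le
        · exact h1.1.le)
    have hstep2 : ∀ n, N₁ + N₂ ≤ n → r (p.v (n + 1)) = r (p.v n) ∧
        comp (lab (p.v (n + 1)), FF (p.v (n + 1))) = comp (lab (p.v n), FF (p.v n)) ∧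
          FF (p.v (n + 1)) ⊆ quo [p.c n] (FF (p.v n)) := by
      intro n hn
      obtain ⟨m, rfl⟩ : ∃ m, n = N₁ + m := ⟨n - N₁, by omega⟩
      obtain ⟨h1, -, h2⟩ := hstep1 (N₁ + m) (Nat.le_add_right _ _)
      have h3 : comp (lab (p.v (N₁ + m + 1)), FF (p.v (N₁ + m + 1))) =
          comp (lab (p.v (N₁ + m)), FF (p.v (N₁ + m))) :=
        (hN₂ (m + 1) (by omega)).trans (hN₂ m (by omega)).symm
      rcases h2 with h2 | h2
      · rw [h3] at h2
        exact absurd h2 (lt_irrefl _)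
      · exact ⟨h1, h2⟩
    have hE : ∃ᶠ n in atTop, FF (p.v (n + 1)) ≠ quo [p.c n] (FF (p.v n)) := by
      refine (hfr.and_eventually (eventually_ge_atTop (N₁ + N₂))).mono ?_
      rintro n ⟨h1 | h1 | h1 | h1 | h1, hn⟩
      · exact absurd (hpL n) h1
      · exact absurd h1 (hnd n)
      · rw [(hstep2 n hn).1] at h1
        exact absurd h1 (lt_irrefl _)
      · rw [(hstep2 n hn).2.1] at h1
        exact absurd h1 (lt_irrefl _)
      · exact h1
    have hFin : Finite {x : A.Q × Set (List S) // IsSt A x} := hfin.to_subtype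
    obtain ⟨t, htT, hEt, ht⟩ := path_loops hB A hpath
      (fun n => (⟨(lab (p.v n), FF (p.v n)), hFF1 _⟩ : {x : A.Q × Set (List S) // IsSt A x}))
      (fun n => FF (p.v (n + 1)) ≠ quo [p.c n] (FF (p.v n))) hE (N₁ + N₂)
    obtain ⟨n, -, hn1, -, hγ, hf, hrep⟩ := ht 1
    obtain ⟨m, rfl⟩ : ∃ m, n = 1 + m := ⟨n - 1, by omega⟩
    have hX : seg p.c t (1 + m) = [p.c t] ++ seg p.c (t + 1) m := by
      rw [seg_add]
      rfl
    have hsub : ∀ i, FF (p.v (t + 1 + i)) ⊆ quo (seg p.c (t + 1) i) (FF (p.v (t + 1))) := by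
      intro i
      induction i with
      | zero => exact le_rfl
      | succ i ih =>
        have h1 := (hstep2 (t + 1 + i) (by omega)).2.2
        rw [seg, quo_append]
        exact h1.trans (quo_mono ih)
    have hFeq : FF (p.v (t + 1 + m)) = FF (p.v t) := by
      rw [Nat.add_assoc]
      exact congrArg (fun z => z.1.2) hγ
    have hsub0 : FF (p.v (t + 1)) ⊆ quo [p.c t] (FF (p.v t)) := (hstep2 t htT).2.2
    obtain ⟨y, hy1, hy2⟩ : ∃ y, y ∈ quo [p.c t] (FF (p.v t)) ∧ y ∉ FF (p.v (t + 1)) := by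
      by_contra hno
      push Not at hno
      exact hEt (Set.Subset.antisymm hsub0 hno)
    have h1 : [p.c t] ++ y ∈ FF (p.v (t + 1 + m)) := by
      rw [hFeq]
      exact hy1
    have h2 : seg p.c (t + 1) m ++ ([p.c t] ++ y) ∈ FF (p.v (t + 1)) := hsub m h1
    have hgo1 : A.go (lab (p.v (t + 1))) (seg p.c (t + 1) m) = some (lab (p.v t)) := by
      have h3 := go_seg hpath (t + 1) m
      rw [Nat.add_assoc, hf] at h3
      exact h3
    have hgo2 : A.go (lab (p.v t)) [p.c t] = some (lab (p.v (t + 1))) := go_single.2 (hpath t)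
    have hY : rep (seg p.c (t + 1) m ++ [p.c t]) ∈ A.ρ (lab (p.v (t + 1))) := by
      refine (hFF1 (p.v (t + 1))).prog hW (v := y) (by simp)
        (go_append.2 ⟨_, hgo1, hgo2⟩) ?_ hy2
      rw [List.append_assoc]
      exact h2
    have h3 := (rotate_mem (u := [p.c t]) (v := seg p.c (t + 1) m) (by simp) hgo2).2 hY
    rw [← hX] at h3
    exact hcon (hrep.1 h3)

/-- Eve has positional strategies in all the games labelled by an automaton. -/
theorem P_of_low [Finite S] {B : Parity S} [Finite B.Q] (hB : W = B.lang B.start)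
    (hW : Suffices OnePlayer W 1) (n : ℕ) :
    ∀ A : LAut W, (∀ q x, x ≠ [] → A.go q x = some q → Low B A n q x) → A.P := by
  induction n with
  | zero =>
    intro A h
    refine P_of_no_loops fun q x hx hgo => ?_
    obtain ⟨b, j, -, -, -, hlt⟩ := h q x hx hgo
    exact Nat.not_lt_zero _ hlt
  | succ n ih =>
    intro A h
    have hfin := finite_isSt A.rem hB
    exact P_of_rem (P_of_ref hB hW hfin
      (ih (A.rem.ref hfin) fun y x hx hy => low_step hB hW hfin h y x hx hy))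

end Pool.Agent.R573.CU
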