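import Pool.Agent.R573.PL.Extract

/-!
# The one-player game with one central vertex

The central vertex has loops labelled by finite words and exits labelled by infinite words. If one
memory state suffices for one-player games, then from the central vertex a single loop repeated for
ever or a single exit is the best possible.
-/

set_option autoImplicit false

namespace Pool.Agent.R573.CU

open Filter

variable {S : Type}

section

variable (L : Set (List S)) (P : Set (ℕ → S))

/-- The edges of the game with one central vertex `Sum.inl []`. -/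
inductive CEdge : List S ⊕ (ℕ → S) → S → List S ⊕ (ℕ → S) → Prop
  | read (a : S) (l : List S) : CEdge (Sum.inl (a :: l)) a (Sum.inl l)
  | loop (a : S) (l : List S) (h : a :: l ∈ L) : CEdge (Sum.inl []) a (Sum.inl l)
  | exit (a : S) (z : ℕ → S) (h : cons a z ∈ P) : CEdge (Sum.inl []) a (Sum.inr z)
  | word (z : ℕ → S) : CEdge (Sum.inr z) (z 0) (Sum.inr (tail z))

/-- The game with one central vertex. -/
def central (h : (∃ a l, a :: l ∈ L) ∨ P.Nonempty) : Game S where
  V := List S ⊕ (ℕ → S)
  edge := CEdge L P
  total := by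
    rintro ((- | ⟨a, l⟩) | z)
    · rcases h with ⟨a, l, hl⟩ | ⟨z, hz⟩
      · exact ⟨a, _, CEdge.loop a l hl⟩
      · refine ⟨z 0, _, CEdge.exit (z 0) (tail z) ?_⟩
        rw [cons_tail]
        exact hz
    · exact ⟨a, _, CEdge.read a l⟩
    · exact ⟨z 0, _, CEdge.word z⟩
  eve := fun _ => True

variable {L P} (h : (∃ a l, a :: l ∈ L) ∨ P.Nonempty)

theorem central_onePlayer : OnePlayer (central L P h) := fun _ => trivial

/-- The vertex with the remaining word `l` to read before the central vertex. -/
def cin (l : List S) : (central L P h).V := Sum.inl l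

/-- The vertex from which the infinite word `z` is read. -/
def cout (z : ℕ → S) : (central L P h).V := Sum.inr z

theorem edge_cin_cons {a c : S} {l : List S} {w : (central L P h).V}
    (he : (central L P h).edge (cin h (a :: l)) c w) : c = a ∧ w = cin h l := by
  change CEdge L P (Sum.inl (a :: l)) c w at he
  cases he
  exact ⟨rfl, rfl⟩

theorem edge_cin_nil {c : S} {w : (central L P h).V}
    (he : (central L P h).edge (cin h []) c w) :
    (∃ l, w = cin h l ∧ c :: l ∈ L) ∨ ∃ z, w = cout h z ∧ cons c z ∈ P := by
  change CEdge L P (Sum.inl []) c w at he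
  cases he with
  | loop a l hl => exact Or.inl ⟨l, rfl, hl⟩
  | exit a z hz => exact Or.inr ⟨z, rfl, hz⟩

theorem edge_cout {c : S} {z : ℕ → S} {w : (central L P h).V}
    (he : (central L P h).edge (cout h z) c w) : c = z 0 ∧ w = cout h (tail z) := by
  change CEdge L P (Sum.inr z) c w at he
  cases he
  exact ⟨rfl, rfl⟩

theorem central_word_out {k : ℕ} (s : Chromatic (central L P h) k) (z : ℕ → S) (m : Fin k) :
    s.word (cout h z) m = z := by
  funext n
  induction n generalizing z m with
  | zero =>
    rw [Chromatic.word_eq]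
    exact (edge_cout h (s.legal (cout h z) m trivial)).1
  | succ n ih =>
    have h2 := (edge_cout h (s.legal (cout h z) m trivial)).2
    rw [Chromatic.word_eq, h2]
    exact ih _ _

theorem central_word_in (s : Chromatic (central L P h) 1) (u : List S) :
    s.word (cin h u) 0 = pre u (s.word (cin h []) 0) := by
  induction u with
  | nil => rfl
  | cons a u ih =>
    obtain ⟨h1, h2⟩ := edge_cin_cons h (s.legal (cin h (a :: u)) 0 trivial)
    have h3 : s.mem.upd 0 a = 0 := Subsingleton.elim _ _
    rw [Chromatic.word_eq, h1, h2, h3, ih]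
    rfl

/-- The word from the central vertex is a repeated loop or an exit. -/
theorem central_word_center (s : Chromatic (central L P h) 1) :
    (∃ X ∈ L, X ≠ [] ∧ pre X (s.word (cin h []) 0) = s.word (cin h []) 0) ∨
      s.word (cin h []) 0 ∈ P := by
  rcases edge_cin_nil h (s.legal (cin h []) 0 trivial) with ⟨l, hl, hL⟩ | ⟨z, hz, hP⟩
  · left
    refine ⟨_, hL, List.cons_ne_nil _ _, ?_⟩
    conv_rhs => rw [Chromatic.word_eq, hl, Subsingleton.elim (s.mem.upd 0 _) 0,
      central_word_in]
    rfl
  · right
    rw [Chromatic.word_eq, hz, central_word_out]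
    exact hP

theorem central_hasPlay_out {z : ℕ → S} {q : Set (ℕ → S)} (hz : z ∈ q) :
    HasPlay (central L P h) (cout h z) q := by
  refine ⟨⟨fun n => cout h (drop n z), z, fun n => ?_⟩, rfl, hz⟩
  have h1 : CEdge L P (Sum.inr (drop n z)) (drop n z 0) (Sum.inr (tail (drop n z))) :=
    CEdge.word _
  have h2 : drop n z 0 = z n := by
    show z (0 + n) = z n
    rw [Nat.zero_add]
  have h3 : tail (drop n z) = drop (n + 1) z := by
    funext i
    show z (i + 1 + n) = z (i + (n + 1))
    congr 1
    omega
  rw [h2, h3] at h1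
  exact h1

theorem central_hasPlay_in (u : List S) {q : Set (ℕ → S)}
    (hp : HasPlay (central L P h) (cin h []) (resid q u)) :
    HasPlay (central L P h) (cin h u) q := by
  induction u generalizing q with
  | nil => exact hp
  | cons a u ih =>
    have h1 : (central L P h).edge (cin h (a :: u)) a (cin h u) := CEdge.read a u
    exact HasPlay.step h1 (ih hp)

theorem central_hasPlay_loop {X : List S} (hX : X ∈ L) (hne : X ≠ []) {q : Set (ℕ → S)}
    (hp : HasPlay (central L P h) (cin h []) (resid q X)) :
    HasPlay (central L P h) (cin h []) q := by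
  rcases X with - | ⟨a, l⟩
  · exact absurd rfl hne
  · have h1 : (central L P h).edge (cin h []) a (cin h l) := CEdge.loop a l hX
    exact HasPlay.step h1 (central_hasPlay_in h l hp)

theorem central_hasPlay_exit {z : ℕ → S} (hz : z ∈ P) {q : Set (ℕ → S)} (hq : z ∈ q) :
    HasPlay (central L P h) (cin h []) q := by
  have h1 : (central L P h).edge (cin h []) (z 0) (cout h (tail z)) :=
    CEdge.exit (z 0) (tail z) (by rw [cons_tail]; exact hz)
  refine HasPlay.step h1 (central_hasPlay_out h ?_)
  show cons (z 0) (tail z) ∈ q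
  rw [cons_tail]
  exact hq

/-- The choice at the central vertex is the best possible for all the entries. -/
theorem central_best {W : Set (ℕ → S)} (hW : Suffices OnePlayer W 1) (u : List S)
    (hp : HasPlay (central L P h) (cin h []) (resid W u)) :
    (∃ X ∈ L, X ≠ [] ∧ ∃ z, pre X z = z ∧ z ∈ resid W u) ∨ ∃ z ∈ P, z ∈ resid W u := by
  obtain ⟨s, hs⟩ := hW (central L P h) (central_onePlayer h)
  have h1 := s.word_mem (central_onePlayer h) hs
    ((central_hasPlay_in h u hp).wins (central_onePlayer h))
  rw [Subsingleton.elim s.mem.start 0, central_word_in] at h1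
  rcases central_word_center h s with ⟨X, hX, hne, hfix⟩ | hP
  · exact Or.inl ⟨X, hX, hne, _, hfix, h1⟩
  · exact Or.inr ⟨_, hP, h1⟩

end

section

variable {W : Set (ℕ → S)} [Nonempty S]

/-- A vertex with two loops. -/
theorem loops_closed (hW : Suffices OnePlayer W 1) {u X Y : List S} (hX : X ≠ []) (hY : Y ≠ [])
    (hmem : rep (X ++ Y) ∈ resid W u) : rep X ∈ resid W u ∨ rep Y ∈ resid W u := by
  classical
  obtain ⟨x, X', rfl⟩ := List.exists_cons_of_ne_nil hX
  obtain ⟨y, Y', rfl⟩ := List.exists_cons_of_ne_nil hY
  let L : Set (List S) := {x :: X', y :: Y'}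
  have h : (∃ a l, a :: l ∈ L) ∨ (∅ : Set (ℕ → S)).Nonempty := Or.inl ⟨x, X', Or.inl rfl⟩
  -- the play which takes the two loops in turn
  let nx : (List S × Bool) → S × (List S × Bool) := fun v =>
    match v with
    | (a :: l, b) => (a, (l, b))
    | ([], false) => (x, (X', true))
    | ([], true) => (y, (Y', false))
  let st : (List S × Bool) → ℕ → List S × Bool := fun v n => (fun v => (nx v).2)^[n] v
  let wd : (List S × Bool) → ℕ → S := fun v n => (nx (st v n)).1
  have hwd : ∀ v, wd v = cons (nx v).1 (wd (nx v).2) := by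
    intro v
    funext n
    rcases n with - | n <;> rfl
  have hpre : ∀ (l : List S) (b : Bool), wd (l, b) = pre l (wd ([], b)) := by
    intro l b
    induction l with
    | nil => rfl
    | cons a l ih =>
      rw [hwd]
      show cons a (wd (l, b)) = _
      rw [ih]
      rfl
  have h1 : wd ([], false) = pre (x :: X') (wd ([], true)) := by
    rw [hwd]
    show cons x (wd (X', true)) = _
    rw [hpre]
    rfl
  have h2 : wd ([], true) = pre (y :: Y') (wd ([], false)) := by
    rw [hwd]
    show cons y (wd (Y', false)) = _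
    rw [hpre]
    rfl
  have h3 : wd ([], false) = rep ((x :: X') ++ (y :: Y')) := by
    apply eq_rep (by simp)
    rw [pre_append', ← h2, ← h1]
  have hedge : ∀ v : List S × Bool, (central L ∅ h).edge (cin h v.1) (nx v).1
      (cin h (nx v).2.1) := by
    rintro ⟨- | ⟨a, l⟩, - | -⟩
    · exact CEdge.loop x X' (Or.inl rfl)
    · exact CEdge.loop y Y' (Or.inr rfl)
    · exact CEdge.read a l
    · exact CEdge.read a l
  have hplay : HasPlay (central L ∅ h) (cin h []) (resid W u) := by
    refine ⟨⟨fun n => cin h (st ([], false) n).1, wd ([], false), fun n => ?_⟩, rfl, ?_⟩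
    · have h4 := hedge (st ([], false) n)
      have h5 : st ([], false) (n + 1) = (nx (st ([], false) n)).2 :=
        Function.iterate_succ_apply' _ _ _
      rw [h5]
      exact h4
    · show wd ([], false) ∈ _
      rw [h3]
      exact hmem
  rcases central_best h hW u hplay with ⟨Z, hZ, hne, z, hz, hzW⟩ | ⟨z, hz, -⟩
  · rcases hZ with rfl | hZ
    · left
      rw [← eq_rep hne hz]
      exact hzW
    · right
      rw [Set.mem_singleton_iff] at hZ
      rw [← hZ, ← eq_rep hne hz]
      exact hzW
  · exact hz.elim

/-- A vertex with a loop and an exit. -/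
theorem progress (hW : Suffices OnePlayer W 1) {u Y : List S} (hY : Y ≠ []) {z : ℕ → S}
    (hz : z ∉ resid W u) (hYz : pre Y z ∈ resid W u) : rep Y ∈ resid W u := by
  obtain ⟨y, Y', rfl⟩ := List.exists_cons_of_ne_nil hY
  have h : (∃ a l, a :: l ∈ ({y :: Y'} : Set (List S))) ∨ ({z} : Set (ℕ → S)).Nonempty :=
    Or.inl ⟨y, Y', rfl⟩
  have hplay : HasPlay (central {y :: Y'} {z} h) (cin h []) (resid W u) :=
    central_hasPlay_loop h (Set.mem_singleton _) hY
      (central_hasPlay_exit h (Set.mem_singleton _) hYz)
  rcases central_best h hW u hplay with ⟨Z, hZ, hne, z', hz', hzW⟩ | ⟨z', hz', hzW⟩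
  · rw [Set.mem_singleton_iff] at hZ
    rw [← hZ, ← eq_rep hne hz']
    exact hzW
  · rw [Set.mem_singleton_iff] at hz'
    rw [hz'] at hzW
    exact absurd hzW hz

end

end Pool.Agent.R573.CU
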