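import Pool.Agent.R573.PL.Even

/-!
# The refined automaton
-/

set_option autoImplicit false

namespace Pool.Agent.R573.CU

open Filter

variable {S : Type} {W : Set (ℕ → S)} [Nonempty S] {A : LAut W}

/-- A state in the sense of `IsState`, or the trivial follower set which contains only the empty
word. -/
def IsSt (A : LAut W) (x : A.Q × Set (List S)) : Prop := IsState A x ∨ x.2 = {[]}

omit [Nonempty S] in
theorem quo_nil (F : Set (List S)) : quo [] F = F := rfl

theorem IsSt.nil_mem {x : A.Q × Set (List S)} (h : IsSt A x) : [] ∈ x.2 := by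
  rcases h with h | h
  · exact h.nil_mem
  · rw [h]
    rfl

theorem IsSt.prefix_mem {x : A.Q × Set (List S)} (h : IsSt A x) {u v : List S}
    (huv : u ++ v ∈ x.2) : u ∈ x.2 := by
  rcases h with h | h
  · exact h.prefix_mem huv
  · rw [h] at huv ⊢
    exact (List.append_eq_nil_iff.1 huv).1

theorem IsSt.go {x : A.Q × Set (List S)} (h : IsSt A x) {v : List S} (hv : v ∈ x.2) :
    ∃ q', A.go x.1 v = some q' ∧ IsSt A (q', quo v x.2) := by
  rcases h with h | h
  · obtain ⟨q', h1, h2⟩ := h.go hv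
    exact ⟨q', h1, Or.inl h2⟩
  · rw [h] at hv
    rw [Set.mem_singleton_iff.1 hv]
    exact ⟨x.1, rfl, Or.inr h⟩

theorem IsSt.back {x : A.Q × Set (List S)} (h : IsSt A x) {v : List S} (hv : v ∈ x.2) :
    ∃ y, v ++ y ∈ x.2 ∧ A.go x.1 (v ++ y) = some x.1 ∧ quo (v ++ y) x.2 = x.2 := by
  rcases h with h | h
  · exact h.back hv
  · rw [h] at hv
    rw [Set.mem_singleton_iff.1 hv]
    refine ⟨[], ?_, rfl, rfl⟩
    rw [h]
    rfl

theorem IsSt.total (hW : Suffices OnePlayer W 1) {x : A.Q × Set (List S)} (h : IsSt A x)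
    {p : List S} (hp : p ∈ x.2) (hgp : A.go x.1 p = some x.1) :
    x.2 ⊆ quo p x.2 ∨ quo p x.2 ⊆ x.2 := by
  rcases h with h | h
  · exact h.total hW hp hgp
  · rw [h] at hp
    rw [Set.mem_singleton_iff.1 hp]
    exact Or.inl le_rfl

theorem IsSt.prog (hW : Suffices OnePlayer W 1) {x : A.Q × Set (List S)} (h : IsSt A x)
    {Y v : List S} (hY : Y ≠ []) (hgY : A.go x.1 Y = some x.1) (hv : Y ++ v ∈ x.2)
    (hv' : v ∉ x.2) : rep Y ∈ A.ρ x.1 := by
  rcases h with h | h
  · exact h.prog hW hY hgY hv hv'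
  · rw [h] at hv
    exact absurd (List.append_eq_nil_iff.1 hv).1 hY

theorem finite_isSt [Finite S] {B : Parity S} [Finite B.Q] (A : LAut W)
    (hB : W = B.lang B.start) : {x : A.Q × Set (List S) | IsSt A x}.Finite := by
  have hA := A.fin
  have h1 : ((Set.univ : Set A.Q) ×ˢ ({{[]}} : Set (Set (List S)))).Finite :=
    Set.finite_univ.prod (Set.finite_singleton _)
  refine ((finite_isState A hB).union h1).subset ?_
  rintro x (h | h)
  · exact Or.inl h
  · exact Or.inr ⟨trivial, h⟩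

omit [Nonempty S] in
theorem go_single {q q' : A.Q} {c : S} : A.go q [c] = some q' ↔ A.δ q c = some q' := by
  rw [go_cons]
  constructor
  · rintro ⟨q1, h1, h2⟩
    cases h2
    exact h1
  · intro h
    exact ⟨q', h, rfl⟩

open Classical in
/-- The refined automaton. -/
noncomputable def LAut.ref (A : LAut W) (hfin : {x : A.Q × Set (List S) | IsSt A x}.Finite) :
    LAut W where
  Q := {x : A.Q × Set (List S) // IsSt A x}
  fin := hfin.to_subtype
  δ := fun x c => if h : [c] ∈ x.1.2 then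
    some ⟨((x.2.go h).choose, quo [c] x.1.2), (x.2.go h).choose_spec.2⟩ else none
  ρ := fun x => A.ρ x.1.1
  hρ := by
    intro x c y h
    by_cases hc : [c] ∈ x.1.2
    · rw [dif_pos hc] at h
      have h1 := Option.some.inj h
      rw [← h1]
      exact A.hρ _ _ _ (go_single.1 (x.2.go hc).choose_spec.1)
    · rw [dif_neg hc] at h
      cases h
  hres := fun x => A.hres x.1.1

variable {hfin : {x : A.Q × Set (List S) | IsSt A x}.Finite}

theorem ref_δ {x y : (A.ref hfin).Q} {c : S} : (A.ref hfin).δ x c = some y ↔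
    [c] ∈ x.1.2 ∧ A.δ x.1.1 c = some y.1.1 ∧ y.1.2 = quo [c] x.1.2 := by
  classical
  show (if h : [c] ∈ x.1.2 then
    some (⟨((x.2.go h).choose, quo [c] x.1.2), (x.2.go h).choose_spec.2⟩ :
      {x : A.Q × Set (List S) // IsSt A x}) else none) = some y ↔ _
  constructor
  · intro h
    by_cases hc : [c] ∈ x.1.2
    · rw [dif_pos hc] at h
      have h1 := Option.some.inj h
      rw [← h1]
      exact ⟨hc, go_single.1 (x.2.go hc).choose_spec.1, rfl⟩
    · rw [dif_neg hc] at h
      cases h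
  · rintro ⟨h1, h2, h3⟩
    rw [dif_pos h1]
    congr 1
    apply Subtype.ext
    refine Prod.ext ?_ h3.symm
    have h4 := go_single.1 (x.2.go h1).choose_spec.1
    rw [h2] at h4
    exact (Option.some.inj h4).symm

theorem ref_go {x y : (A.ref hfin).Q} {u : List S} (h : (A.ref hfin).go x u = some y) :
    u ∈ x.1.2 ∧ A.go x.1.1 u = some y.1.1 ∧ y.1.2 = quo u x.1.2 := by
  induction u generalizing x with
  | nil =>
    have h1 : x = y := Option.some.inj h
    rw [← h1]
    exact ⟨x.2.nil_mem, rfl, rfl⟩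
  | cons a u ih =>
    obtain ⟨z, h1, h2⟩ := go_cons.1 h
    obtain ⟨h3, h4, h5⟩ := ref_δ.1 h1
    obtain ⟨h6, h7, h8⟩ := ih h2
    rw [h5] at h6 h8
    refine ⟨h6, go_cons.2 ⟨_, h4, h7⟩, ?_⟩
    rw [h8, ← quo_append]
    rfl

/-- Reachability between the states. -/
def Reaches (A : LAut W) (x y : A.Q × Set (List S)) : Prop :=
  ∃ u, u ∈ x.2 ∧ A.go x.1 u = some y.1 ∧ y.2 = quo u x.2

theorem reaches_refl {x : A.Q × Set (List S)} (h : IsSt A x) : Reaches A x x :=
  ⟨[], h.nil_mem, rfl, rfl⟩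

omit [Nonempty S] in
theorem reaches_trans {x y z : A.Q × Set (List S)} (h1 : Reaches A x y) (h2 : Reaches A y z) :
    Reaches A x z := by
  obtain ⟨u, hu, hgu, hFu⟩ := h1
  obtain ⟨v, hv, hgv, hFv⟩ := h2
  refine ⟨u ++ v, ?_, go_append.2 ⟨_, hgu, hgv⟩, ?_⟩
  · rw [hFu] at hv
    exact hv
  · rw [hFv, hFu, quo_append]

theorem reaches_symm {x y : A.Q × Set (List S)} (hx : IsSt A x) (h : Reaches A x y) :
    Reaches A y x := by
  obtain ⟨u, hu, hgu, hFu⟩ := h
  obtain ⟨v, hv, hgv, hFv⟩ := hx.back hu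
  refine ⟨v, ?_, ?_, ?_⟩
  · rw [hFu]
    exact hv
  · obtain ⟨q1, h3, h4⟩ := go_append.1 hgv
    rw [hgu] at h3
    cases h3
    exact h4
  · rw [hFu, ← quo_append, hFv]

/-- A numbering of the components. -/
theorem exists_comp (hfin : {x : A.Q × Set (List S) | IsSt A x}.Finite) :
    ∃ comp : A.Q × Set (List S) → ℕ, ∀ x y, IsSt A x → IsSt A y →
      (comp x = comp y ↔ Reaches A x y) := by
  classical
  let T := {x : A.Q × Set (List S) // IsSt A x}
  have hT : Finite T := hfin.to_subtype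
  let r : Setoid T :=
    { r := fun x y => Reaches A x.1 y.1
      iseqv :=
        { refl := fun x => reaches_refl x.2
          symm := by
            intro x _ h
            exact reaches_symm x.2 h
          trans := fun h1 h2 => reaches_trans h1 h2 } }
  have hQ : Finite (Quotient r) := inferInstance
  obtain ⟨n, ⟨e⟩⟩ := Finite.exists_equiv_fin (Quotient r)
  refine ⟨fun x => if h : IsSt A x then (e (Quotient.mk r ⟨x, h⟩)).1 else 0, fun x y hx hy => ?_⟩
  dsimp only
  rw [dif_pos hx, dif_pos hy]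
  constructor
  · intro h
    have h1 := e.injective (Fin.ext h)
    exact Quotient.exact h1
  · intro h
    have h1 : Quotient.mk r ⟨x, hx⟩ = Quotient.mk r ⟨y, hy⟩ := Quotient.sound h
    rw [h1]

/-- The least follower set with a property over a given state. -/
theorem exists_least_state (hW : Suffices OnePlayer W 1)
    (hfin : {x : A.Q × Set (List S) | IsSt A x}.Finite)
    {comp : A.Q × Set (List S) → ℕ}
    (hcomp : ∀ x y, IsSt A x → IsSt A y → (comp x = comp y ↔ Reaches A x y))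
    (q : A.Q) (Pr : Set (List S) → Prop) (hne : ∃ F, IsSt A (q, F) ∧ Pr F) :
    ∃ F, IsSt A (q, F) ∧ Pr F ∧ ∀ F', IsSt A (q, F') → Pr F' →
      comp (q, F) < comp (q, F') ∨ (comp (q, F) = comp (q, F') ∧ F ⊆ F') := by
  have hT : {F | IsSt A (q, F) ∧ Pr F}.Finite := by
    refine (hfin.image Prod.snd).subset ?_
    rintro F ⟨hF, -⟩
    exact ⟨(q, F), hF, rfl⟩
  obtain ⟨F₀, hF₀, hmin⟩ := Set.exists_min_image _ (fun F => comp (q, F)) hT hne
  have hT' : {F | (IsSt A (q, F) ∧ Pr F) ∧ comp (q, F) = comp (q, F₀)}.Finite :=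
    hT.subset fun F hF => hF.1
  obtain ⟨F, hF⟩ := hT'.exists_minimal ⟨F₀, hF₀, rfl⟩
  obtain ⟨⟨hF1, hF2⟩, hF3⟩ := hF.prop
  refine ⟨F, hF1, hF2, fun F' h1 h2 => ?_⟩
  rcases lt_or_eq_of_le (hmin F' ⟨h1, h2⟩) with h3 | h3
  · left
    rw [hF3]
    exact h3
  · right
    have h4 : comp (q, F) = comp (q, F') := hF3.trans h3
    refine ⟨h4, ?_⟩
    obtain ⟨p, hp, hgp, hFp⟩ := (hcomp _ _ hF1 h1).1 h4
    dsimp only at hp hgp hFp
    rcases hF1.total hW hp hgp with h5 | h5
    · rw [hFp]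
      exact h5
    · rw [hFp]
      refine hF.le_of_le ⟨⟨?_, ?_⟩, ?_⟩ h5
      · rw [← hFp]
        exact h1
      · rw [← hFp]
        exact h2
      · rw [← hFp, ← h3]

section Measure

variable [Finite S] {B : Parity S} [Finite B.Q]

/-- The largest priority of a loop from some state is less than `n`. -/
def Low (B : Parity S) (A : LAut W) (n : ℕ) (q : A.Q) (x : List S) : Prop :=
  ∃ b j, 1 ≤ j ∧ B.lang b = A.ρ q ∧ (pow x j).foldl B.step b = b ∧ B.pm b (pow x j) < n

omit [Finite S] [Nonempty S] in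
theorem pow_prefix (x : List S) {i j m : ℕ} (h : i + j ≤ m) :
    pow x m = pow x i ++ (pow x j ++ pow x (m - (i + j))) := by
  rw [← pow_add, ← pow_add]
  congr 1
  omega

omit [Finite S] [Nonempty S] in
/-- Reading a power of a loop contains a cycle of the parity automaton. -/
theorem exists_cycle {q : A.Q} {x : List S} (hgx : A.go q x = some q) {b : B.Q}
    (hb : B.lang b = A.ρ q) {m : ℕ} (hm : Nat.card B.Q ≤ m) :
    ∃ b' j, 1 ≤ j ∧ B.lang b' = A.ρ q ∧ (pow x j).foldl B.step b' = b' ∧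
      B.pm b' (pow x j) ≤ B.pm b (pow x m) := by
  obtain ⟨i, j, hj, hij, hper⟩ := foldl_pow_period b x m hm
  refine ⟨(pow x i).foldl B.step b, j, hj, lang_loop (go_pow hgx i) hb, hper, ?_⟩
  rw [pow_prefix x hij, pm_append, pm_append]
  exact (le_max_left _ _).trans (le_max_right _ _)

theorem low_step (hB : W = B.lang B.start) (hW : Suffices OnePlayer W 1) {A : LAut W} {n : ℕ}
    (hfin : {x : A.rem.Q × Set (List S) | IsSt A.rem x}.Finite)
    (h : ∀ q x, x ≠ [] → A.go q x = some q → Low B A (n + 1) q x)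
    (y : (A.rem.ref hfin).Q) (x : List S) (hx : x ≠ [])
    (hy : (A.rem.ref hfin).go y x = some y) : Low B (A.rem.ref hfin) n y x := by
  have hst : IsState A.rem y.1 := by
    rcases y.2 with h1 | h1
    · exact h1
    · have h2 := (ref_go hy).1
      rw [h1] at h2
      exact absurd h2 hx
  obtain ⟨hx1, hgx, hquo⟩ := ref_go hy
  have hgx' : A.rem.go y.1.1 x = some y.1.1 := hgx
  set m := Nat.card B.Q with hm
  have hm1 : 1 ≤ m := by
    have : Nonempty B.Q := ⟨B.start⟩
    exact Nat.card_pos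
  have hKx : A.rem.K y.1.1 (pow x m) := hst.K (ref_go (go_pow hy m)).1
  obtain ⟨s, hs1, hs2, hs3⟩ := hKx
  -- the winning loop `z` of the automaton without the good transitions
  set z := pow x m ++ s with hz
  have hzm : A.rem.go y.1.1 (pow z m) = some y.1.1 := go_pow hs2 m
  obtain ⟨s', ht1, ht2, ht3⟩ := ng_of_rem hB hW (pow z m) (pow_ne_nil hs1 hm1) hzm
  -- the losing loop `t`
  set t := pow z m ++ s' with ht
  obtain ⟨b, j, hj, hb, hbt, hpm⟩ := h y.1.1 t ht1 ht2
  have hodd : ¬ Even (B.pm b (pow t j)) := by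
    intro he
    apply ht3
    have h1 := (rep_mem_lang (pow_ne_nil ht1 hj) hbt).2 he
    rw [rep_pow ht1 hj, hb] at h1
    exact h1
  obtain ⟨j', rfl⟩ : ∃ j', j = j' + 1 := ⟨j - 1, by omega⟩
  have hle1 : B.pm b (pow z m) ≤ B.pm b (pow t (j' + 1)) := by
    show _ ≤ B.pm b (t ++ pow t j')
    rw [pm_append, ht, pm_append]
    exact (le_max_left _ _).trans (le_max_left _ _)
  obtain ⟨b₁, j₁, hj₁, hb₁, hcyc₁, hpm₁⟩ := exists_cycle (A := A.rem) hs2 hb hm.ge
  have heven : Even (B.pm b₁ (pow z j₁)) := by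
    have h1 : rep (pow z j₁) ∈ B.lang b₁ := by
      rw [rep_pow hs1 hj₁, hb₁]
      exact hs3
    exact (rep_mem_lang (pow_ne_nil hs1 hj₁) hcyc₁).1 h1
  have hlt : B.pm b₁ (pow z j₁) < n := by
    have h1 : B.pm b₁ (pow z j₁) ≤ B.pm b (pow t (j' + 1)) := hpm₁.trans hle1
    have h2 : B.pm b₁ (pow z j₁) ≠ B.pm b (pow t (j' + 1)) := by
      intro h3
      rw [h3] at heven
      exact hodd heven
    omega
  obtain ⟨j₁', rfl⟩ : ∃ j', j₁ = j' + 1 := ⟨j₁ - 1, by omega⟩
  have hle2 : B.pm b₁ (pow x m) ≤ B.pm b₁ (pow z (j₁' + 1)) := by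
    show _ ≤ B.pm b₁ (z ++ pow z j₁')
    rw [pm_append, hz, pm_append]
    exact (le_max_left _ _).trans (le_max_left _ _)
  obtain ⟨b₂, j₂, hj₂, hb₂, hcyc₂, hpm₂⟩ := exists_cycle (A := A.rem) hgx' hb₁ hm.ge
  exact ⟨b₂, j₂, hj₂, hb₂, hcyc₂, by omega⟩

end Measure

end Pool.Agent.R573.CU
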