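import Pool.Agent.R573.CU.Aut

/-!
# Periodic words and cycles of a parity automaton
-/

set_option autoImplicit false

namespace Pool.Agent.R573.CU

open Filter

variable {S : Type}

theorem pre_append' (u v : List S) (z : ℕ → S) : pre (u ++ v) z = pre u (pre v z) := by
  induction u with
  | nil => rfl
  | cons a u ih =>
    show cons a (pre (u ++ v) z) = cons a (pre u (pre v z))
    rw [ih]

/-- The segment of length `n` of an infinite word from the time `t`. -/
def seg (w : ℕ → S) (t : ℕ) : ℕ → List S
  | 0 => []
  | n + 1 => seg w t n ++ [w (t + n)]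

theorem seg_length (w : ℕ → S) (t n : ℕ) : (seg w t n).length = n := by
  induction n with
  | zero => rfl
  | succ n ih => rw [seg, List.length_append, ih]; rfl

theorem seg_add (w : ℕ → S) (t m n : ℕ) : seg w t (m + n) = seg w t m ++ seg w (t + m) n := by
  induction n with
  | zero => rw [Nat.add_zero, seg, List.append_nil]
  | succ n ih =>
    rw [← Nat.add_assoc, seg, ih, seg, List.append_assoc, Nat.add_assoc]

theorem pre_seg (w : ℕ → S) (t n : ℕ) : pre (seg w t n) (drop (t + n) w) = drop t w := by
  induction n with
  | zero => rfl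
  | succ n ih =>
    rw [seg, pre_append', ← ih]
    congr 1
    funext i
    rcases i with - | i
    · show w (t + n) = w (0 + (t + n))
      rw [Nat.zero_add]
    · show w (i + (t + (n + 1))) = w (i + 1 + (t + n))
      congr 1
      omega

/-- A power of a finite word. -/
def pow (y : List S) : ℕ → List S
  | 0 => []
  | n + 1 => y ++ pow y n

theorem pow_add (y : List S) (m n : ℕ) : pow y (m + n) = pow y m ++ pow y n := by
  induction m with
  | zero => rw [Nat.zero_add]; rfl
  | succ m ih =>
    rw [Nat.succ_add]
    show y ++ pow y (m + n) = y ++ pow y m ++ pow y n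
    rw [ih, List.append_assoc]

theorem pow_one (y : List S) : pow y 1 = y := List.append_nil y

theorem pow_ne_nil {y : List S} (hy : y ≠ []) {n : ℕ} (hn : 1 ≤ n) : pow y n ≠ [] := by
  obtain ⟨m, rfl⟩ : ∃ m, n = m + 1 := ⟨n - 1, by omega⟩
  intro h
  exact hy (List.append_eq_nil_iff.1 h).1

theorem pre_pow {y : List S} {z : ℕ → S} (h : pre y z = z) (n : ℕ) : pre (pow y n) z = z := by
  induction n with
  | zero => rfl
  | succ n ih =>
    show pre (y ++ pow y n) z = z
    rw [pre_append', ih, h]

/-- A fixed point of a nonempty word is unique. -/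
theorem pre_fixed_unique {y : List S} (hy : y ≠ []) {z z' : ℕ → S} (h : pre y z = z)
    (h' : pre y z' = z') : z = z' := by
  have key : ∀ (u : List S) (a b : ℕ → S) (N : ℕ), (∀ n, n < N → a n = b n) →
      ∀ n, n < u.length + N → pre u a n = pre u b n := by
    intro u
    induction u with
    | nil =>
      intro a b N hab n hn
      exact hab n (by simpa using hn)
    | cons c u ih =>
      intro a b N hab n hn
      rcases n with - | n
      · rfl
      · exact ih a b N hab n (by simp at hn; omega)
  have hlen : 1 ≤ y.length := List.length_pos_iff.2 hy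
  have all : ∀ N n, n < N → z n = z' n := by
    intro N
    induction N with
    | zero => intro n hn; omega
    | succ N ih =>
      intro n hn
      rw [← h, ← h']
      exact key y z z' N ih n (by omega)
  funext n
  exact all (n + 1) n (Nat.lt_succ_self n)

variable [Nonempty S]

/-- The periodic word with the period `y`. -/
noncomputable def rep (y : List S) : ℕ → S := fun n =>
  y.getD (n % y.length) (Classical.arbitrary S)

theorem pre_eq (u : List S) (z : ℕ → S) (n : ℕ) :
    pre u z n = if n < u.length then u.getD n (Classical.arbitrary S) else z (n - u.length) := by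
  induction u generalizing n with
  | nil => rfl
  | cons a u ih =>
    rcases n with - | n
    · rfl
    · show pre u z n = _
      rw [ih]
      simp

theorem rep_eq {y : List S} (hy : y ≠ []) : pre y (rep y) = rep y := by
  have hlen : 1 ≤ y.length := List.length_pos_iff.2 hy
  funext n
  rw [pre_eq]
  split_ifs with h
  · show _ = y.getD (n % y.length) _
    rw [Nat.mod_eq_of_lt h]
  · show y.getD ((n - y.length) % y.length) _ = y.getD (n % y.length) _
    rw [← Nat.mod_eq_sub_mod (by omega)]

theorem eq_rep {y : List S} (hy : y ≠ []) {z : ℕ → S} (h : pre y z = z) : z = rep y :=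
  pre_fixed_unique hy h (rep_eq hy)

theorem rep_rotate {u v : List S} (h : u ++ v ≠ []) : rep (u ++ v) = pre u (rep (v ++ u)) := by
  have h' : v ++ u ≠ [] := by
    intro h2
    obtain ⟨h3, h4⟩ := List.append_eq_nil_iff.1 h2
    rw [h3, h4] at h
    exact h rfl
  symm
  apply eq_rep h
  rw [pre_append', ← pre_append' v u, rep_eq h']

theorem rep_pow {y : List S} (hy : y ≠ []) {n : ℕ} (hn : 1 ≤ n) : rep (pow y n) = rep y :=
  (eq_rep (pow_ne_nil hy hn) (pre_pow (rep_eq hy) n)).symm

omit [Nonempty S] in
theorem run_pre (B : Parity S) (b : B.Q) (u : List S) (z : ℕ → S) (n : ℕ) :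
    B.run b (pre u z) (n + u.length) = B.run (u.foldl B.step b) z n := by
  induction u generalizing b with
  | nil => rfl
  | cons a u ih =>
    show B.run b (cons a (pre u z)) (n + u.length + 1) = _
    rw [run_cons, ih]
    rfl

/-- The largest priority along a finite word. -/
def Parity.pm (B : Parity S) : B.Q → List S → ℕ
  | _, [] => 0
  | b, a :: u => max (B.prio b a) (B.pm (B.step b a) u)

omit [Nonempty S] in
theorem pm_append (B : Parity S) (b : B.Q) (u v : List S) :
    B.pm b (u ++ v) = max (B.pm b u) (B.pm (u.foldl B.step b) v) := by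
  induction u generalizing b with
  | nil => exact (max_eq_right (Nat.zero_le _)).symm
  | cons a u ih =>
    show max _ (B.pm (B.step b a) (u ++ v)) = max (max _ _) _
    rw [ih, max_assoc]
    rfl

omit [Nonempty S] in
theorem prio_le_pm (B : Parity S) (b : B.Q) (u : List S) (z : ℕ → S) (n : ℕ)
    (hn : n < u.length) : B.prio (B.run b (pre u z) n) (pre u z n) ≤ B.pm b u := by
  induction u generalizing b n with
  | nil => exact absurd hn (Nat.not_lt_zero _)
  | cons a u ih =>
    rcases n with - | n
    · exact le_max_left _ _
    · have h1 : B.run b (pre (a :: u) z) (n + 1) = B.run (B.step b a) (pre u z) n :=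
        run_cons B b a (pre u z) n
      rw [h1]
      exact (ih (B.step b a) n (by simp at hn; omega)).trans (le_max_right _ _)

omit [Nonempty S] in
theorem exists_prio_eq_pm (B : Parity S) (b : B.Q) (u : List S) (hu : u ≠ []) (z : ℕ → S) :
    ∃ n, n < u.length ∧ B.prio (B.run b (pre u z) n) (pre u z n) = B.pm b u := by
  induction u generalizing b with
  | nil => exact absurd rfl hu
  | cons a u ih =>
    by_cases h : B.pm (B.step b a) u ≤ B.prio b a
    · exact ⟨0, by simp, (max_eq_left h).symm⟩
    · have hu' : u ≠ [] := by
        rintro rfl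
        exact h (Nat.zero_le _)
      obtain ⟨n, hn, he⟩ := ih (B.step b a) hu'
      refine ⟨n + 1, by simp; omega, ?_⟩
      have h1 : B.run b (pre (a :: u) z) (n + 1) = B.run (B.step b a) (pre u z) n :=
        run_cons B b a (pre u z) n
      rw [h1]
      show B.prio (B.run (B.step b a) (pre u z) n) (pre u z n) = max _ _
      rw [he, max_eq_right (by omega)]

/-- The acceptance of a periodic word whose period leads from a state to itself. -/
theorem rep_mem_lang {B : Parity S} {b : B.Q} {y : List S} (hy : y ≠ [])
    (hb : y.foldl B.step b = b) : rep y ∈ B.lang b ↔ Even (B.pm b y) := by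
  show B.Accepts b (rep y) ↔ _
  rw [accepts_iff]
  set f : ℕ → ℕ := fun n => B.prio (B.run b (rep y) n) (rep y n) with hf
  have hlen : 1 ≤ y.length := List.length_pos_iff.2 hy
  have hper : ∀ n, f (n + y.length) = f n := by
    intro n
    have h1 : B.run b (rep y) (n + y.length) = B.run b (rep y) n := by
      conv_lhs => rw [← rep_eq hy]
      rw [run_pre, hb]
    have h2 : rep y (n + y.length) = rep y n := by
      show y.getD ((n + y.length) % y.length) _ = y.getD (n % y.length) _
      rw [Nat.add_mod_right]
    show B.prio (B.run b (rep y) (n + y.length)) (rep y (n + y.length)) = _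
    rw [h1, h2]
  have hper' : ∀ k n, f (n + k * y.length) = f n := by
    intro k
    induction k with
    | zero => intro n; rw [Nat.zero_mul, Nat.add_zero]
    | succ k ih =>
      intro n
      rw [Nat.succ_mul, ← Nat.add_assoc, hper, ih]
  have hle0 : ∀ n, n < y.length → f n ≤ B.pm b y := by
    intro n hn
    have h1 := prio_le_pm B b y (rep y) n hn
    rw [rep_eq hy] at h1
    exact h1
  have hle : ∀ n, f n ≤ B.pm b y := by
    intro n
    have h1 : n = n % y.length + n / y.length * y.length := by
      rw [Nat.mul_comm]
      exact (Nat.mod_add_div n y.length).symm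
    rw [h1, hper']
    exact hle0 _ (Nat.mod_lt _ (by omega))
  obtain ⟨n₀, hn₀, he⟩ := exists_prio_eq_pm B b y hy (rep y)
  rw [rep_eq hy] at he
  have hfreq : ∃ᶠ n in atTop, f n = B.pm b y := by
    rw [frequently_atTop]
    intro N
    refine ⟨n₀ + N * y.length, ?_, ?_⟩
    · calc N = N * 1 := (Nat.mul_one N).symm
        _ ≤ N * y.length := Nat.mul_le_mul_left N hlen
        _ ≤ n₀ + N * y.length := Nat.le_add_left _ _
    · rw [hper']
      exact he
  constructor
  · rintro ⟨d, hd, h1, h2⟩
    have h3 : B.pm b y ≤ d := by
      obtain ⟨n, hn, hn'⟩ := (hfreq.and_eventually h2).exists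
      rw [hn] at hn'
      exact hn'
    have h4 : d ≤ B.pm b y := by
      obtain ⟨n, hn⟩ := h1.exists
      rw [← hn]
      exact hle n
    rw [le_antisymm h3 h4]
    exact hd
  · intro h
    exact ⟨_, h, hfreq, Eventually.of_forall hle⟩

omit [Nonempty S] in
theorem foldl_pow_period {B : Parity S} [Finite B.Q] (b : B.Q) (y : List S) (m : ℕ)
    (hm : Nat.card B.Q ≤ m) : ∃ i j, 1 ≤ j ∧ i + j ≤ m ∧
      (pow y j).foldl B.step ((pow y i).foldl B.step b) = (pow y i).foldl B.step b := by
  classical
  have := Fintype.ofFinite B.Q
  have hcard : Fintype.card B.Q < Fintype.card (Fin (m + 1)) := by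
    rw [Fintype.card_fin, ← Nat.card_eq_fintype_card]
    omega
  obtain ⟨i, j, hij, he⟩ := Fintype.exists_ne_map_eq_of_card_lt
    (fun i : Fin (m + 1) => (pow y i.1).foldl B.step b) hcard
  have key : ∀ i j : ℕ, i < j → j ≤ m → (pow y i).foldl B.step b = (pow y j).foldl B.step b →
      ∃ i j, 1 ≤ j ∧ i + j ≤ m ∧
      (pow y j).foldl B.step ((pow y i).foldl B.step b) = (pow y i).foldl B.step b := by
    intro i j hij hj he
    refine ⟨i, j - i, by omega, by omega, ?_⟩
    rw [← List.foldl_append, ← pow_add, Nat.add_sub_cancel' (by omega), ← he]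
  rcases lt_or_gt_of_ne (fun h => hij (Fin.ext h) : i.1 ≠ j.1) with h | h
  · exact key i.1 j.1 h (by omega) he
  · exact key j.1 i.1 h (by omega) he.symm

end Pool.Agent.R573.CU
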