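import Pool.Agent.R573.PL.LAut

/-!
# Words on winning loops, follower sets and stable words
-/

set_option autoImplicit false

namespace Pool.Agent.R573.CU

open Filter

variable {S : Type} {W : Set (ℕ → S)} [Nonempty S]

/-- The word can be extended to a winning loop. -/
def LAut.K (A : LAut W) (q : A.Q) (v : List S) : Prop :=
  ∃ s, v ++ s ≠ [] ∧ A.go q (v ++ s) = some q ∧ rep (v ++ s) ∈ A.ρ q

/-- The follower set of a word. -/
def LAut.Fol (A : LAut W) (q : A.Q) (u : List S) : Set (List S) := {v | A.K q (u ++ v)}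

/-- Rotation of a winning loop. -/
theorem rotate_mem {A : LAut W} {q q' : A.Q} {u v : List S} (hne : u ++ v ≠ [])
    (h : A.go q u = some q') : rep (u ++ v) ∈ A.ρ q ↔ rep (v ++ u) ∈ A.ρ q' := by
  rw [rep_rotate hne, ← go_resid h]
  rfl

theorem K_prefix {A : LAut W} {q : A.Q} {u v : List S} (h : A.K q (u ++ v)) : A.K q u := by
  obtain ⟨s, h1, h2, h3⟩ := h
  rw [List.append_assoc] at h1 h2 h3
  exact ⟨v ++ s, h1, h2, h3⟩

theorem K_go {A : LAut W} {q : A.Q} {u : List S} (h : A.K q u) : ∃ q', A.go q u = some q' := by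
  obtain ⟨s, -, h2, -⟩ := h
  obtain ⟨q', h3, -⟩ := go_append.1 h2
  exact ⟨q', h3⟩

theorem K_factor {A : LAut W} {q q' : A.Q} {u v : List S} (h : A.K q (u ++ v))
    (hu : A.go q u = some q') : A.K q' v := by
  obtain ⟨s, h1, h2, h3⟩ := h
  rw [List.append_assoc] at h1 h2 h3
  obtain ⟨q1, h4, h5⟩ := go_append.1 h2
  rw [hu] at h4
  cases h4
  have hne : (v ++ s) ++ u ≠ [] := by
    intro h
    obtain ⟨h6, h7⟩ := List.append_eq_nil_iff.1 h
    rw [h6, h7] at h1
    exact h1 rfl
  refine ⟨s ++ u, ?_, ?_, ?_⟩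
  · rw [← List.append_assoc]
    exact hne
  · rw [← List.append_assoc]
    exact go_append.2 ⟨q, h5, hu⟩
  · rw [← List.append_assoc]
    exact (rotate_mem h1 hu).1 h3

/-- A winning loop read any number of times. -/
theorem K_pow {A : LAut W} {q : A.Q} {x : List S} (hx : x ≠ []) (h1 : A.go q x = some q)
    (h2 : rep x ∈ A.ρ q) (n : ℕ) : A.K q (pow x n) := by
  refine ⟨x, ?_, ?_, ?_⟩
  · simp [hx]
  · exact go_append.2 ⟨q, go_pow h1 n, h1⟩
  · have h3 : pow x n ++ x = pow x (n + 1) := by rw [pow_add, pow_one]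
    rw [h3, rep_pow hx (by omega)]
    exact h2

/-- If `u ++ s` is a winning loop, then `u ++ s ++ u` can be extended to a winning loop. -/
theorem K_double {A : LAut W} {q : A.Q} {u s : List S} (h1 : u ++ s ≠ [])
    (h2 : A.go q (u ++ s) = some q) (h3 : rep (u ++ s) ∈ A.ρ q) : A.K q (u ++ s ++ u) := by
  have h4 := K_pow h1 h2 h3 2
  have h5 : pow (u ++ s) 2 = u ++ s ++ u ++ s := by
    show (u ++ s) ++ ((u ++ s) ++ []) = _
    simp
  rw [h5] at h4
  exact K_prefix h4

/-- A word is stable if longer contexts on the left do not change the follower set. -/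
def LAut.Stable (A : LAut W) (q : A.Q) (u : List S) : Prop :=
  A.K q u ∧ ∀ q1 z, A.go q1 z = some q → A.K q1 (z ++ u) → A.Fol q u ⊆ A.Fol q1 (z ++ u)

theorem Fol_antitone {A : LAut W} {q q1 : A.Q} {z u : List S} (h : A.go q1 z = some q) :
    A.Fol q1 (z ++ u) ⊆ A.Fol q u := by
  intro v hv
  show A.K q (u ++ v)
  have h1 : A.K q1 (z ++ u ++ v) := hv
  rw [List.append_assoc] at h1
  exact K_factor h1 h

theorem stable_right {A : LAut W} {q : A.Q} {u v : List S} (h : A.Stable q u)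
    (hv : A.K q (u ++ v)) : A.Stable q (u ++ v) := by
  refine ⟨hv, fun q1 z hz hK x hx => ?_⟩
  have h1 : A.K q1 (z ++ u ++ v) := by
    rw [List.append_assoc]
    exact hK
  have h2 := h.2 q1 z hz (K_prefix h1)
  have h3 : v ++ x ∈ A.Fol q u := by
    show A.K q (u ++ (v ++ x))
    rw [← List.append_assoc]
    exact hx
  have h4 : A.K q1 (z ++ u ++ (v ++ x)) := h2 h3
  show A.K q1 (z ++ (u ++ v) ++ x)
  have h5 : z ++ (u ++ v) ++ x = z ++ u ++ (v ++ x) := by simp
  rw [h5]
  exact h4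

section Finiteness

variable [Finite S] {B : Parity S} [Finite B.Q] (hB : W = B.lang B.start)

/-- Two finite words act in the same way on the parity automaton. -/
def PE (B : Parity S) (u u' : List S) : Prop :=
  ∀ b, u.foldl B.step b = u'.foldl B.step b ∧ B.pm b u = B.pm b u'

omit [Nonempty S] [Finite S] [Finite B.Q] in
theorem PE.append {u u' v v' : List S} (h : PE B u u') (h' : PE B v v') :
    PE B (u ++ v) (u' ++ v') := by
  intro b
  constructor
  · rw [List.foldl_append, List.foldl_append, (h b).1, (h' _).1]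
  · rw [pm_append, pm_append, (h b).2, (h b).1, (h' _).2]

omit [Nonempty S] [Finite S] [Finite B.Q] in
theorem PE.pow {u u' : List S} (h : PE B u u') (n : ℕ) : PE B (CU.pow u n) (CU.pow u' n) := by
  induction n with
  | zero => exact fun b => ⟨rfl, rfl⟩
  | succ n ih => exact h.append ih

omit [Nonempty S] [Finite S] in
theorem pm_le (B : Parity S) {M : ℕ} (hM : ∀ b c, B.prio b c ≤ M) (b : B.Q) (u : List S) :
    B.pm b u ≤ M := by
  induction u generalizing b with
  | nil => exact Nat.zero_le _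
  | cons a u ih => exact max_le (hM b a) (ih _)

omit [Nonempty S] [Finite S] [Finite B.Q] in
theorem lang_loop {A : LAut W} {q : A.Q} {x : List S} (hx : A.go q x = some q) {b : B.Q}
    (hb : B.lang b = A.ρ q) : B.lang (x.foldl B.step b) = A.ρ q := by
  rw [← resid_lang, hb, go_resid hx]

omit [Finite S] in
include hB in
theorem K_congr {A : LAut W} {q : A.Q} {u u' v : List S} (hgo : A.go q u = A.go q u')
    (hPE : PE B u u') (h : A.K q (u ++ v)) : A.K q (u' ++ v) := by
  obtain ⟨s, h1, h2, h3⟩ := h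
  by_cases hne : u' ++ v ++ s = []
  · have h4 : u' ++ v = [] := (List.append_eq_nil_iff.1 hne).1
    rw [h4]
    exact ⟨u ++ v ++ s, h1, h2, h3⟩
  refine ⟨s, hne, ?_, ?_⟩
  · rw [List.append_assoc] at h2 ⊢
    obtain ⟨q1, h4, h5⟩ := go_append.1 h2
    exact go_append.2 ⟨q1, hgo ▸ h4, h5⟩
  · obtain ⟨b₀, hb₀⟩ := exists_state B hB A q
    obtain ⟨i, j, hj, -, hper⟩ := foldl_pow_period (B := B) b₀ (u ++ v ++ s) _ le_rfl
    have hb₁ : B.lang ((CU.pow (u ++ v ++ s) i).foldl B.step b₀) = A.ρ q :=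
      lang_loop (go_pow h2 i) hb₀
    generalize (CU.pow (u ++ v ++ s) i).foldl B.step b₀ = b₁ at hper hb₁
    have hx : PE B (CU.pow (u ++ v ++ s) j) (CU.pow (u' ++ v ++ s) j) :=
      ((hPE.append fun b => ⟨rfl, rfl⟩).append fun b => ⟨rfl, rfl⟩).pow j
    rw [← hb₁, ← rep_pow h1 hj, rep_mem_lang (pow_ne_nil h1 hj) hper] at h3
    rw [← hb₁, ← rep_pow hne hj, rep_mem_lang (pow_ne_nil hne hj) (by rw [← (hx b₁).1, hper]),
      ← (hx b₁).2]
    exact h3

omit [Nonempty S] [Finite S] in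
theorem finite_range_of_factor {α β γ : Type} [Finite β] (g : α → β) (f : α → γ)
    (h : ∀ x y, g x = g y → f x = f y) : (Set.range f).Finite := by
  choose c hc using fun y : Set.range f => y.2
  have hinj : Function.Injective fun y : Set.range f => g (c y) := by
    intro y y' hyy'
    apply Subtype.ext
    rw [← hc y, ← hc y']
    exact h _ _ hyy'
  have := Finite.of_injective _ hinj
  exact Set.toFinite _

include hB in
theorem finite_Fol (A : LAut W) :
    (Set.range fun x : A.Q × List S => A.Fol x.1 x.2).Finite := by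
  obtain ⟨M, hM⟩ := prio_bound B
  have hA := A.fin
  refine finite_range_of_factor (β := A.Q × Option A.Q × (B.Q → B.Q × Fin (M + 1)))
    (fun x => (x.1, A.go x.1 x.2, fun b => (x.2.foldl B.step b, ⟨B.pm b x.2, by
      have := pm_le B hM b x.2
      omega⟩))) _ ?_
  rintro ⟨q, u⟩ ⟨q', u'⟩ h
  obtain ⟨h1, h2, h3⟩ := Prod.ext_iff.1 h |>.imp_right Prod.ext_iff.1
  dsimp only at h1 h2 h3
  subst h1
  have hPE : PE B u u' := by
    intro b
    have h4 := congrFun h3 b
    exact ⟨congrArg Prod.fst h4, congrArg (fun y => (Prod.snd y).1) h4⟩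
  ext v
  constructor
  · exact K_congr hB h2 hPE
  · exact K_congr hB h2.symm fun b => ⟨(hPE b).1.symm, (hPE b).2.symm⟩

include hB in
theorem exists_stable {A : LAut W} {q : A.Q} {u : List S} (h : A.K q u) :
    ∃ q1 z, A.go q1 z = some q ∧ A.Stable q1 (z ++ u) := by
  let T : Set (Set (List S)) := {F | ∃ q1 z, A.go q1 z = some q ∧ A.K q1 (z ++ u) ∧
    F = A.Fol q1 (z ++ u)}
  have hT : T.Finite := (finite_Fol hB A).subset (by
    rintro F ⟨q1, z, -, -, rfl⟩
    exact ⟨(q1, z ++ u), rfl⟩)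
  obtain ⟨F, hF⟩ := hT.exists_minimal ⟨_, q, [], rfl, h, rfl⟩
  obtain ⟨q1, z, h1, h2, h3⟩ := hF.prop
  refine ⟨q1, z, h1, h2, fun q2 y hy hK => ?_⟩
  have h4 : A.Fol q2 (y ++ (z ++ u)) ∈ T := by
    refine ⟨q2, y ++ z, go_append.2 ⟨q1, hy, h1⟩, ?_, ?_⟩
    · rw [List.append_assoc]
      exact hK
    · rw [List.append_assoc]
  have h5 : A.Fol q2 (y ++ (z ++ u)) ⊆ F := by
    rw [h3]
    exact Fol_antitone hy
  rw [← h3]
  exact hF.le_of_le h4 h5

end Finiteness

end Pool.Agent.R573.CU
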