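import Pool.Agent.R573.PL.Refined

/-!
# Settled vertices

The vertices from which Eve wins are obtained by an inductive definition: from each of them she can
stay in a follower set until a winning edge or an earlier vertex is reached, or stay in it for ever
and win.
-/

set_option autoImplicit false

namespace Pool.Agent.R573.CU

open Filter

section Plays

variable {S : Type} {G : Game S}

/-- Each strategy is followed by some play. -/
theorem Strategy.exists_follows (σ : Strategy G) (v : G.V) :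
    ∃ p : Play G, p.v 0 = v ∧ σ.Follows p := by
  classical
  have hany : ∀ v : G.V, ∃ e : S × G.V, G.edge v e.1 e.2 := by
    intro v
    obtain ⟨c, w, h⟩ := G.total v
    exact ⟨(c, w), h⟩
  choose any hany using hany
  obtain ⟨p, hp0, hp⟩ := exists_play G v (fun l u => if G.eve u then σ.move l u else any u) (by
    intro l u
    by_cases h : G.eve u
    · rw [if_pos h]
      exact σ.legal l u h
    · rw [if_neg h]
      exact hany u)
  refine ⟨p, hp0, fun n hn => ?_⟩
  have h1 := hp n
  rw [if_pos hn] at h1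
  exact h1

theorem histOf_add {V : Type} (v : ℕ → V) (c : ℕ → S) (t n : ℕ) :
    histOf v c (t + n) = histOf v c t ++ histOf (fun i => v (t + i)) (fun i => c (t + i)) n := by
  induction n with
  | zero =>
    show histOf v c t = histOf v c t ++ []
    rw [List.append_nil]
  | succ n ih => rw [← Nat.add_assoc, histOf_succ, ih, histOf_succ, List.append_assoc]

theorem histOf_congr {V : Type} {v v' : ℕ → V} {c c' : ℕ → S} {n : ℕ}
    (hv : ∀ i, i < n → v i = v' i) (hc : ∀ i, i < n → c i = c' i) :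
    histOf v c n = histOf v' c' n := by
  unfold histOf
  apply List.map_congr_left
  intro i hi
  rw [List.mem_range] at hi
  rw [hv i hi, hc i hi]

theorem seg_congr {w w' : ℕ → S} {t t' n : ℕ} (h : ∀ i, i < n → w (t + i) = w' (t' + i)) :
    seg w t n = seg w' t' n := by
  induction n with
  | zero => rfl
  | succ n ih => rw [seg, seg, ih fun i hi => h i (by omega), h n (by omega)]

/-- The play `p` up to the time `t`, followed by the play `q`. -/
def splice (p : Play G) (t : ℕ) (q : Play G) (h : q.v 0 = p.v t) : Play G where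
  v := fun n => if n < t then p.v n else q.v (n - t)
  c := fun n => if n < t then p.c n else q.c (n - t)
  step := by
    intro n
    by_cases h1 : n < t
    · rw [if_pos h1, if_pos h1]
      by_cases h2 : n + 1 < t
      · rw [if_pos h2]
        exact p.step n
      · rw [if_neg h2]
        have h3 : n + 1 = t := by omega
        rw [h3, Nat.sub_self, h, ← h3]
        exact p.step n
    · rw [if_neg h1, if_neg h1, if_neg (by omega)]
      have h3 : n + 1 - t = n - t + 1 := by omega
      rw [h3]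
      exact q.step _

variable {p q : Play G} {t : ℕ} {h : q.v 0 = p.v t}

theorem splice_v_lt {n : ℕ} (h1 : n < t) : (splice p t q h).v n = p.v n := if_pos h1

theorem splice_v_le {n : ℕ} (h1 : n ≤ t) : (splice p t q h).v n = p.v n := by
  rcases lt_or_eq_of_le h1 with h2 | h2
  · exact if_pos h2
  · show (if n < t then p.v n else q.v (n - t)) = _
    rw [if_neg (by omega), h2, Nat.sub_self, h]

theorem splice_v_add (n : ℕ) : (splice p t q h).v (t + n) = q.v n := by
  show (if t + n < t then p.v (t + n) else q.v (t + n - t)) = _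
  rw [if_neg (by omega), Nat.add_sub_cancel_left]

theorem splice_c_lt {n : ℕ} (h1 : n < t) : (splice p t q h).c n = p.c n := if_pos h1

theorem splice_c_add (n : ℕ) : (splice p t q h).c (t + n) = q.c n := by
  show (if t + n < t then p.c (t + n) else q.c (t + n - t)) = _
  rw [if_neg (by omega), Nat.add_sub_cancel_left]

theorem splice_follows {σ : Strategy G} (hp : σ.Follows p)
    (hq : (σ.shiftL (histOf p.v p.c t)).Follows q) : σ.Follows (splice p t q h) := by
  intro n hn
  show _ = σ.move (histOf _ _ n) _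
  by_cases h1 : n < t
  · have hh : histOf (splice p t q h).v (splice p t q h).c n = histOf p.v p.c n :=
      histOf_congr (fun i hi => splice_v_lt (by omega)) fun i hi => splice_c_lt (by omega)
    rw [hh, splice_c_lt h1, splice_v_le (by omega : n + 1 ≤ t), splice_v_lt h1]
    rw [splice_v_lt h1] at hn
    exact hp n hn
  · obtain ⟨m, rfl⟩ : ∃ m, n = t + m := ⟨n - t, by omega⟩
    have hh : histOf (splice p t q h).v (splice p t q h).c (t + m) =
        histOf p.v p.c t ++ histOf q.v q.c m := by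
      rw [histOf_add]
      congr 1
      · exact histOf_congr (fun i hi => splice_v_lt hi) fun i hi => splice_c_lt hi
      · exact histOf_congr (fun i _ => splice_v_add i) fun i _ => splice_c_add i
    rw [hh, splice_c_add, Nat.add_assoc, splice_v_add, splice_v_add]
    rw [splice_v_add] at hn
    exact hq m hn

/-- The limit of a sequence of plays which agree on longer and longer prefixes. -/
theorem exists_limit (s : ℕ → Play G × ℕ) (hlt : ∀ k, (s k).2 < (s (k + 1)).2)
    (hv : ∀ k i, i ≤ (s k).2 → (s (k + 1)).1.v i = (s k).1.v i)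
    (hc : ∀ k i, i < (s k).2 → (s (k + 1)).1.c i = (s k).1.c i) :
    ∃ p : Play G, ∀ k, (∀ i, i ≤ (s k).2 → p.v i = (s k).1.v i) ∧
      ∀ i, i < (s k).2 → p.c i = (s k).1.c i := by
  have hge : ∀ k, k ≤ (s k).2 := by
    intro k
    induction k with
    | zero => exact Nat.zero_le _
    | succ k ih => exact Nat.succ_le_of_lt (lt_of_le_of_lt ih (hlt k))
  have hmono : ∀ k d, (s k).2 ≤ (s (k + d)).2 := by
    intro k d
    induction d with
    | zero => exact le_rfl
    | succ d ih => exact ih.trans (hlt _).le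
  have hv' : ∀ k d i, i ≤ (s k).2 → (s (k + d)).1.v i = (s k).1.v i := by
    intro k d
    induction d with
    | zero => intro i _; rfl
    | succ d ih =>
      intro i hi
      rw [← ih i hi]
      exact hv (k + d) i (hi.trans (hmono k d))
  have hc' : ∀ k d i, i < (s k).2 → (s (k + d)).1.c i = (s k).1.c i := by
    intro k d
    induction d with
    | zero => intro i _; rfl
    | succ d ih =>
      intro i hi
      rw [← ih i hi]
      exact hc (k + d) i (lt_of_lt_of_le hi (hmono k d))
  have hv2 : ∀ k l i, i ≤ (s k).2 → i ≤ (s l).2 → (s k).1.v i = (s l).1.v i := by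
    intro k l i h1 h2
    rcases le_total k l with h3 | h3
    · obtain ⟨d, rfl⟩ := Nat.exists_eq_add_of_le h3
      exact (hv' k d i h1).symm
    · obtain ⟨d, rfl⟩ := Nat.exists_eq_add_of_le h3
      exact hv' l d i h2
  have hc2 : ∀ k l i, i < (s k).2 → i < (s l).2 → (s k).1.c i = (s l).1.c i := by
    intro k l i h1 h2
    rcases le_total k l with h3 | h3
    · obtain ⟨d, rfl⟩ := Nat.exists_eq_add_of_le h3
      exact (hc' k d i h1).symm
    · obtain ⟨d, rfl⟩ := Nat.exists_eq_add_of_le h3
      exact hc' l d i h2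
  refine ⟨⟨fun n => (s n).1.v n, fun n => (s (n + 1)).1.c n, fun n => ?_⟩, fun k => ⟨?_, ?_⟩⟩
  · have h1 := (s (n + 1)).1.step n
    rw [hv2 (n + 1) n n ((Nat.le_succ n).trans (hge _)) (hge n)] at h1
    exact h1
  · intro i hi
    exact hv2 _ _ _ (hge i) hi
  · intro i hi
    exact hc2 _ _ _ (Nat.lt_of_succ_le (hge (i + 1))) hi

end Plays

variable {S : Type} {W : Set (ℕ → S)}

/-- The strategy stays in the follower set until a winning edge or the set `X` is reached, or it
stays in the follower set for ever and wins. -/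
def SBy (A : LAut W) (G : Game S) (done : G.V → S → G.V → Prop) (lab : G.V → A.Q)
    (X : Set G.V) (F : Set (List S)) (σ : Strategy G) (v : G.V) : Prop :=
  ∀ p : Play G, p.v 0 = v → σ.Follows p →
    (∃ n, seg p.c 0 n ∈ F ∧ (done (p.v n) (p.c n) (p.v (n + 1)) ∨ p.v (n + 1) ∈ X)) ∨
      ((∀ n, seg p.c 0 n ∈ F) ∧ p.c ∈ A.ρ (lab v))

section

variable {A : LAut W} {G : Game S} {done : G.V → S → G.V → Prop} {lab : G.V → A.Q}

theorem SBy.mono {X X' : Set G.V} (hX : X ⊆ X') {F : Set (List S)} {σ : Strategy G} {v : G.V}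
    (h : SBy A G done lab X F σ v) : SBy A G done lab X' F σ v := by
  intro p hp0 hf
  rcases h p hp0 hf with ⟨n, h1, h2⟩ | h1
  · exact Or.inl ⟨n, h1, h2.imp_right fun h => hX h⟩
  · exact Or.inr h1

/-- From a vertex which is not settled, each winning strategy has a play which leaves the follower
set. -/
theorem kill {L : Set G.V} {F : Set (List S)} {σ : Strategy G} {v : G.V} (hnil : [] ∈ F)
    (hS : ¬ SBy A G done lab L F σ v) (hσ : WinsBy G done (fun v => A.ρ (lab v)) σ v) :
    ∃ p : Play G, p.v 0 = v ∧ σ.Follows p ∧ ∃ m, seg p.c 0 (m + 1) ∉ F ∧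
      ∀ i, i ≤ m → ¬ done (p.v i) (p.c i) (p.v (i + 1)) ∧ p.v (i + 1) ∉ L := by
  classical
  unfold SBy at hS
  push Not at hS
  obtain ⟨p, hp0, hf, h1, h2⟩ := hS
  refine ⟨p, hp0, hf, ?_⟩
  have hex : ∃ n, seg p.c 0 n ∉ F := by
    by_contra hcon
    push Not at hcon
    rcases hσ p hp0 hf with ⟨n, hn⟩ | h3
    · exact (h1 n (hcon n)).1 hn
    · exact h2 hcon h3
  have hspec := Nat.find_spec hex
  obtain ⟨m, hm⟩ : ∃ m, Nat.find hex = m + 1 := by
    rcases h : Nat.find hex with - | m
    · rw [h] at hspec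
      exact absurd hnil hspec
    · exact ⟨m, rfl⟩
  refine ⟨m, hm ▸ hspec, fun i hi => ?_⟩
  have h3 := Nat.find_min hex (m := i) (by omega)
  rw [not_not] at h3
  exact h1 i h3

theorem go_seg_local {f : ℕ → A.Q} {w : ℕ → S} (t n : ℕ)
    (h : ∀ i, i < n → A.δ (f (t + i)) (w (t + i)) = some (f (t + i + 1))) :
    A.go (f t) (seg w t n) = some (f (t + n)) := by
  induction n with
  | zero => rfl
  | succ n ih =>
    rw [seg]
    exact go_append.2 ⟨_, ih fun i hi => h i (by omega), go_cons.2 ⟨_, h n (by omega), rfl⟩⟩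

/-- The invariant of the construction of the play. -/
structure Inv (done : G.V → S → G.V → Prop) (L : Set G.V) (σ : Strategy G) (v : G.V)
    (x : Play G × ℕ) : Prop where
  start : x.1.v 0 = v
  follows : σ.Follows x.1
  good : ∀ i, i < x.2 → ¬ done (x.1.v i) (x.1.c i) (x.1.v (i + 1)) ∧ x.1.v (i + 1) ∉ L

variable [Nonempty S]

theorem kill_step (hlab : ∀ v c w, G.edge v c w → ¬ done v c w → A.δ (lab v) c = some (lab w))
    {L : Set G.V} (hL : ∀ u F σ, IsSt A (lab u, F) → SBy A G done lab L F σ u → u ∈ L)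
    {σ : Strategy G} {v : G.V} (hv : v ∉ L) (hσ : WinsBy G done (fun v => A.ρ (lab v)) σ v)
    {x : Play G × ℕ} (hx : Inv done L σ v x) {T : ℕ} (hT : T ≤ x.2) {F : Set (List S)}
    (hF : IsSt A (lab (x.1.v T), F)) :
    ∃ y : Play G × ℕ, Inv done L σ v y ∧ x.2 < y.2 ∧ (∀ i, i ≤ x.2 → y.1.v i = x.1.v i) ∧
      (∀ i, i < x.2 → y.1.c i = x.1.c i) ∧ ∃ n, seg y.1.c T n ∉ F ∧ T + n ≤ y.2 := by
  classical
  obtain ⟨p, t⟩ := x
  obtain ⟨hp0, hf, hgood⟩ := hx
  dsimp only at *
  -- the current vertex is not settled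
  have huL : p.v t ∉ L := by
    rcases t with - | t
    · rw [hp0]
      exact hv
    · exact (hgood t (Nat.lt_succ_self t)).2
  have hδ : ∀ i, i < t → A.δ (lab (p.v i)) (p.c i) = some (lab (p.v (i + 1))) := fun i hi =>
    hlab _ _ _ (p.step i) (hgood i hi).1
  have hgo : ∀ a n, a + n ≤ t → A.go (lab (p.v a)) (seg p.c a n) = some (lab (p.v (a + n))) :=
    fun a n han => go_seg_local (f := fun n => lab (p.v n)) a n fun i hi => hδ (a + i) (by omega)
  -- the residual strategy wins
  have hτ : WinsBy G done (fun v => A.ρ (lab v)) (σ.shiftL (histOf p.v p.c t)) (p.v t) := by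
    intro q hq0 hq
    rcases hσ (splice p t q hq0) ((splice_v_le (Nat.zero_le t)).trans hp0)
      (splice_follows hf hq) with ⟨n, hn⟩ | h1
    · by_cases h1 : n < t
      · exfalso
        rw [splice_v_lt h1, splice_c_lt h1, splice_v_le (by omega : n + 1 ≤ t)] at hn
        exact (hgood n h1).1 hn
      · obtain ⟨m, rfl⟩ : ∃ m, n = t + m := ⟨n - t, by omega⟩
        rw [splice_v_add, splice_c_add, Nat.add_assoc, splice_v_add] at hn
        exact Or.inl ⟨m, hn⟩
    · right
      have h2 := go_resid (hgo 0 t (by omega))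
      rw [Nat.zero_add] at h2
      show q.c ∈ A.ρ (lab (p.v t))
      rw [← h2, hp0]
      show pre (seg p.c 0 t) q.c ∈ A.ρ (lab v)
      have h3 : pre (seg p.c 0 t) q.c = (splice p t q hq0).c := by
        have h4 := pre_seg (splice p t q hq0).c 0 t
        have h5 : seg (splice p t q hq0).c 0 t = seg p.c 0 t :=
          seg_congr fun i hi => splice_c_lt (by omega)
        have h6 : drop (0 + t) (splice p t q hq0).c = q.c := by
          funext i
          show (splice p t q hq0).c (i + (0 + t)) = _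
          have h7 : i + (0 + t) = t + i := by omega
          rw [h7, splice_c_add]
        rw [h5, h6] at h4
        rw [h4]
        rfl
      rw [h3]
      exact h1
  -- the follower set which is left
  obtain ⟨F', hF', hkey⟩ : ∃ F', IsSt A (lab (p.v t), F') ∧ ∀ u, u ≠ [] → u ∉ F' →
      ∃ n, n ≤ t - T + u.length ∧ ∀ w : ℕ → S, (∀ i, i < t → w i = p.c i) →
        seg w t u.length = u → seg w T n ∉ F := by
    by_cases halive : seg p.c T (t - T) ∈ F
    · obtain ⟨q', h1, h2⟩ := hF.go halive
      have h3 := hgo T (t - T) (by omega)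
      have hTt : T + (t - T) = t := by omega
      rw [hTt] at h3
      dsimp only at h1 h2
      rw [h3] at h1
      have h4 : lab (p.v t) = q' := Option.some.inj h1
      rw [← h4] at h2
      refine ⟨_, h2, fun u _ hu => ⟨t - T + u.length, le_rfl, fun w hw hwu hcon => hu ?_⟩⟩
      rw [seg_add, hTt, hwu] at hcon
      have h5 : seg w T (t - T) = seg p.c T (t - T) := seg_congr fun i hi => hw _ (by omega)
      rw [h5] at hcon
      exact hcon
    · refine ⟨{[]}, Or.inr rfl, fun u _ _ => ⟨t - T, by omega, fun w hw _ => ?_⟩⟩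
      have h5 : seg w T (t - T) = seg p.c T (t - T) := seg_congr fun i hi => hw _ (by omega)
      rw [h5]
      exact halive
  obtain ⟨q, hq0, hq, m, hm1, hm2⟩ := kill (L := L) hF'.nil_mem
    (fun h => huL (hL _ _ _ hF' h)) hτ
  obtain ⟨n, hn1, hn2⟩ := hkey (seg q.c 0 (m + 1)) (by rw [seg]; simp) hm1
  rw [seg_length] at hn1 hn2
  refine ⟨(splice p t q hq0, t + (m + 1)),
    ⟨(splice_v_le (h := hq0) (Nat.zero_le t)).trans hp0, splice_follows (h := hq0) hf hq, ?_⟩, ?_,
    fun i hi => splice_v_le (h := hq0) hi, fun i hi => splice_c_lt (h := hq0) hi, n, ?_, ?_⟩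
  · intro i hi
    dsimp only at hi ⊢
    by_cases h1 : i < t
    · rw [splice_v_lt h1, splice_c_lt h1, splice_v_le (by omega : i + 1 ≤ t)]
      exact hgood i h1
    · obtain ⟨j, rfl⟩ : ∃ j, i = t + j := ⟨i - t, by omega⟩
      rw [splice_v_add, splice_c_add, Nat.add_assoc, splice_v_add]
      exact hm2 j (by omega)
  · dsimp only
    omega
  · refine hn2 _ (fun i hi => splice_c_lt (h := hq0) hi) (seg_congr fun i _ => ?_)
    rw [splice_c_add, Nat.zero_add]
  · dsimp only
    omega

/-- Every vertex from which Eve wins is settled. -/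
theorem settled [Finite S] {B : Parity S} [Finite B.Q] (hB : W = B.lang B.start)
    (hfin : {x : A.Q × Set (List S) | IsSt A x}.Finite)
    (hlab : ∀ v c w, G.edge v c w → ¬ done v c w → A.δ (lab v) c = some (lab w))
    {L : Set G.V} (hL : ∀ u F σ, IsSt A (lab u, F) → SBy A G done lab L F σ u → u ∈ L)
    {σ : Strategy G} {v : G.V} (hσ : WinsBy G done (fun v => A.ρ (lab v)) σ v) : v ∈ L := by
  classical
  by_contra hv
  -- an enumeration of the states
  obtain ⟨e, he⟩ : ∃ e : ℕ → A.Q × Set (List S), {x | IsSt A x} = Set.range e := by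
    refine hfin.countable.exists_eq_range ⟨(lab v, {[]}), Or.inr rfl⟩
  have hstep : ∀ (k : ℕ) (x : Play G × ℕ), Inv done L σ v x → ∃ y : Play G × ℕ,
      Inv done L σ v y ∧ x.2 < y.2 ∧ (∀ i, i ≤ x.2 → y.1.v i = x.1.v i) ∧
      (∀ i, i < x.2 → y.1.c i = x.1.c i) ∧
      (k.unpair.1 ≤ x.2 → IsSt A (lab (x.1.v k.unpair.1), (e k.unpair.2).2) →
        ∃ n, seg y.1.c k.unpair.1 n ∉ (e k.unpair.2).2 ∧ k.unpair.1 + n ≤ y.2) := by
    intro k x hx
    by_cases h1 : k.unpair.1 ≤ x.2 ∧ IsSt A (lab (x.1.v k.unpair.1), (e k.unpair.2).2)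
    · obtain ⟨y, h2, h3, h4, h5, h6⟩ := kill_step hlab hL hv hσ hx h1.1 h1.2
      exact ⟨y, h2, h3, h4, h5, fun _ _ => h6⟩
    · obtain ⟨y, h2, h3, h4, h5, -⟩ := kill_step hlab hL hv hσ hx (T := x.2) le_rfl
        (F := {[]}) (Or.inr rfl)
      exact ⟨y, h2, h3, h4, h5, fun h7 h8 => absurd ⟨h7, h8⟩ h1⟩
  choose nx hnx1 hnx2 hnx3 hnx4 hnx5 using hstep
  obtain ⟨p₀, hp0, hf0⟩ := σ.exists_follows v
  let st : ℕ → {x : Play G × ℕ // Inv done L σ v x} := fun k =>
    Nat.rec ⟨(p₀, 0), hp0, hf0, fun i hi => absurd hi (Nat.not_lt_zero i)⟩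
      (fun k x => ⟨nx k x.1 x.2, hnx1 k x.1 x.2⟩) k
  have hst : ∀ k, (st (k + 1)).1 = nx k (st k).1 (st k).2 := fun k => rfl
  have hlt : ∀ k, (st k).1.2 < (st (k + 1)).1.2 := fun k => hnx2 k (st k).1 (st k).2
  obtain ⟨p, hp⟩ := exists_limit (fun k => (st k).1) hlt
    (fun k i hi => hnx3 k (st k).1 (st k).2 i hi) fun k i hi => hnx4 k (st k).1 (st k).2 i hi
  have hge : ∀ k, k ≤ (st k).1.2 := by
    intro k
    induction k with
    | zero => exact Nat.zero_le _
    | succ k ih => exact Nat.succ_le_of_lt (lt_of_le_of_lt ih (hlt k))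
  have hgt : ∀ n, n < (st (n + 1)).1.2 := fun n => Nat.lt_of_succ_le (hge (n + 1))
  have hpv : ∀ n i, i ≤ n + 1 → p.v i = (st (n + 1)).1.1.v i := fun n i hi =>
    (hp (n + 1)).1 i (hi.trans (hge _))
  have hpc : ∀ n i, i ≤ n → p.c i = (st (n + 1)).1.1.c i := fun n i hi =>
    (hp (n + 1)).2 i (lt_of_le_of_lt hi (hgt n))
  have hfol : σ.Follows p := by
    intro n hn
    have h1 := (st (n + 1)).2.follows n
    rw [← hpv n n (Nat.le_succ n), ← hpv n (n + 1) le_rfl, ← hpc n n le_rfl] at h1
    show _ = σ.move (histOf p.v p.c n) (p.v n)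
    have h2 : histOf p.v p.c n = histOf (st (n + 1)).1.1.v (st (n + 1)).1.1.c n :=
      histOf_congr (fun i hi => hpv n i (by omega)) fun i hi => hpc n i hi.le
    rw [h2]
    exact h1 hn
  have hnd : ∀ n, ¬ done (p.v n) (p.c n) (p.v (n + 1)) := by
    intro n
    rw [hpv n n (Nat.le_succ n), hpv n (n + 1) le_rfl, hpc n n le_rfl]
    exact ((st (n + 1)).2.good n (hgt n)).1
  have hstart : p.v 0 = v := (hpv 0 0 (Nat.zero_le _)).trans (st 1).2.start
  have hmem : p.c ∈ A.ρ (lab (p.v 0)) := by
    rcases hσ p hstart hfol with ⟨n, hn⟩ | h1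
    · exact absurd hn (hnd n)
    · rw [hstart]
      exact h1
  have hpath : A.Path (fun n => lab (p.v n)) p.c := fun n => hlab _ _ _ (p.step n) (hnd n)
  -- some follower set is never left
  obtain ⟨t, -, -, ht⟩ := path_loops hB A hpath (Γ := Unit) (fun _ => ()) (fun _ => True)
    (Frequently.of_forall fun _ => trivial) 0
  have hK : ∀ N, ∃ F, IsSt A (lab (p.v t), F) ∧ seg p.c t N ∈ F := by
    intro N
    obtain ⟨n, hn, hn1, -, -, hloop, hrep⟩ := ht N
    have h1 : A.K (lab (p.v t)) (seg p.c t n) := by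
      refine ⟨[], ?_, ?_, ?_⟩
      · rw [List.append_nil]
        intro h2
        have h3 := seg_length p.c t n
        rw [h2] at h3
        simp at h3
        omega
      · rw [List.append_nil]
        have h2 := go_seg hpath t n
        rw [hloop] at h2
        exact h2
      · rw [List.append_nil]
        exact hrep.2 hmem
    obtain ⟨F, hF1, hF2⟩ := exists_isState hB h1
    refine ⟨F, Or.inl hF1, ?_⟩
    obtain ⟨d, rfl⟩ := Nat.exists_eq_add_of_le hn
    rw [seg_add] at hF2
    exact hF1.prefix_mem hF2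
  choose Fs hFs1 hFs2 using hK
  have hFin : Finite {x : A.Q × Set (List S) // IsSt A x} := hfin.to_subtype
  obtain ⟨y, hy⟩ := Finite.exists_infinite_fiber fun N =>
    (⟨(lab (p.v t), Fs N), hFs1 N⟩ : {x : A.Q × Set (List S) // IsSt A x})
  have hyinf := Set.infinite_coe_iff.1 hy
  obtain ⟨N₀, hN₀⟩ := hyinf.nonempty
  have hN₀' : (⟨(lab (p.v t), Fs N₀), hFs1 N₀⟩ : {x : A.Q × Set (List S) // IsSt A x}) = y := hN₀
  have halive : ∀ n, seg p.c t n ∈ Fs N₀ := by
    intro n
    obtain ⟨N, hN, hlt⟩ := hyinf.exists_gt n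
    have hN' : (⟨(lab (p.v t), Fs N), hFs1 N⟩ : {x : A.Q × Set (List S) // IsSt A x}) = y := hN
    have h1 : Fs N = Fs N₀ := by
      have h2 := hN'.trans hN₀'.symm
      exact congrArg (fun z => z.1.2) h2
    obtain ⟨d, rfl⟩ := Nat.exists_eq_add_of_le hlt.le
    have h3 := hFs2 (n + d)
    rw [seg_add, h1] at h3
    exact (hFs1 N₀).prefix_mem h3
  -- the step at which this follower set was to be left
  obtain ⟨j, hj⟩ : (lab (p.v t), Fs N₀) ∈ Set.range e := by
    rw [← he]
    exact hFs1 N₀
  have hu1 : (Nat.pair t j).unpair.1 = t := by rw [Nat.unpair_pair]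
  have hu2 : (Nat.pair t j).unpair.2 = j := by rw [Nat.unpair_pair]
  have h1 := hnx5 (Nat.pair t j) (st (Nat.pair t j)).1 (st (Nat.pair t j)).2
  rw [hu1, hu2, hj, ← hst] at h1
  have h2 : t ≤ (st (Nat.pair t j)).1.2 := (Nat.left_le_pair t j).trans (hge _)
  have h3 : (st (Nat.pair t j)).1.1.v t = p.v t := ((hp (Nat.pair t j)).1 t h2).symm
  rw [h3] at h1
  obtain ⟨n, hn1, hn2⟩ := h1 h2 (hFs1 N₀)
  apply hn1
  have h4 : seg (st (Nat.pair t j + 1)).1.1.c t n = seg p.c t n :=
    seg_congr fun i hi => ((hp (Nat.pair t j + 1)).2 (t + i) (by omega)).symm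
  rw [h4]
  exact halive n

end

end Pool.Agent.R573.CU
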