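import Pool.Agent.R573.PL.Odd

/-!
# The positional lift for omega-regular objectives
-/

set_option autoImplicit false

namespace Pool.Agent.R573.CU

open Filter

variable {S : Type} {W : Set (ℕ → S)}

/-- The automaton of the residuals. -/
def residAut (W : Set (ℕ → S)) (hfin : (Set.range (resid W)).Finite) : LAut W where
  Q := {R : Set (ℕ → S) // ∃ u, R = resid W u}
  fin := by
    have h1 : Finite (Set.range (resid W)) := hfin.to_subtype
    refine Finite.of_injective (fun R : {R : Set (ℕ → S) // ∃ u, R = resid W u} =>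
      (⟨R.1, R.2.imp fun u hu => hu.symm⟩ : Set.range (resid W))) fun R R' h => Subtype.ext ?_
    exact congrArg (fun z => z.1) h
  δ := fun R c => some ⟨der c R.1, by
    obtain ⟨u, hu⟩ := R.2
    exact ⟨u ++ [c], by rw [hu, der_resid]⟩⟩
  ρ := fun R => R.1
  hρ := by
    intro R c R' h
    exact congrArg Subtype.val (Option.some.inj h)
  hres := fun R => R.2

theorem residAut_P [Nonempty S] [Finite S] {B : Parity S} [Finite B.Q] (hB : W = B.lang B.start)
    (hW : Suffices OnePlayer W 1) (hfin : (Set.range (resid W)).Finite) : (residAut W hfin).P := by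
  obtain ⟨M, hM⟩ := prio_bound B
  refine P_of_low hB hW (M + 1) _ fun q x _ hgo => ?_
  obtain ⟨b, hb⟩ := exists_state B hB _ q
  obtain ⟨b', j, hj, hb', hcyc, hle⟩ := exists_cycle hgo hb (m := Nat.card B.Q) le_rfl
  refine ⟨b', j, hj, hb', hcyc, ?_⟩
  have := pm_le B hM b (pow x (Nat.card B.Q))
  omega

/-- The least residual with a property. -/
theorem exists_least_resid (hW : Suffices OnePlayer W 1) (hfin : (Set.range (resid W)).Finite)
    (Pr : Set (ℕ → S) → Prop) (hne : ∃ u, Pr (resid W u)) :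
    ∃ u, Pr (resid W u) ∧ ∀ u', Pr (resid W u') → resid W u ⊆ resid W u' := by
  obtain ⟨M, hM⟩ := exists_works hW
  have hT : {R | (∃ u, R = resid W u) ∧ Pr R}.Finite := by
    refine hfin.subset ?_
    rintro R ⟨⟨u, hu⟩, -⟩
    exact ⟨u, hu.symm⟩
  obtain ⟨u₀, hu₀⟩ := hne
  obtain ⟨R, hR⟩ := hT.exists_minimal ⟨_, ⟨u₀, rfl⟩, hu₀⟩
  obtain ⟨⟨u, rfl⟩, hu⟩ := hR.prop
  refine ⟨u, hu, fun u' hu' => ?_⟩
  rcases chain hM (Subsingleton.elim (M.run u) (M.run u')) with h | h
  · exact h
  · exact hR.le_of_le ⟨⟨u', rfl⟩, hu'⟩ h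

theorem positional_top [Nonempty S] [Finite S] {B : Parity S} [Finite B.Q]
    (hB : W = B.lang B.start) (hW : Suffices OnePlayer W 1) (G : Game S) :
    ∃ ch : G.V → S × G.V, (∀ v, G.eve v → G.edge v (ch v).1 (ch v).2) ∧
      ∀ p : Play G, Wins G W (p.v 0) →
        (∀ n, G.eve (p.v n) → (p.c n, p.v (n + 1)) = ch (p.v n)) → p.c ∈ W := by
  classical
  have hfin : (Set.range (resid W)).Finite := by
    refine finite_resid ⟨B, inferInstance, fun w => ?_⟩
    rw [hB]
    rfl
  let Z : Set G.V := {v | ∃ u, Wins G (resid W u) v}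
  have hval : ∀ v, ∃ R : {R : Set (ℕ → S) // ∃ u, R = resid W u}, v ∈ Z → Wins G R.1 v ∧
      ∀ u, Wins G (resid W u) v → R.1 ⊆ resid W u := by
    intro v
    by_cases hv : v ∈ Z
    · obtain ⟨u, h1, h2⟩ := exists_least_resid hW hfin (fun R => Wins G R v) hv
      exact ⟨⟨_, u, rfl⟩, fun _ => ⟨h1, h2⟩⟩
    · exact ⟨⟨_, [], rfl⟩, fun h => absurd h hv⟩
  choose val hval using hval
  let nd : G.V → S → G.V → Prop := fun _ _ _ => False
  have hkey : ∀ σ v, WinsBy G nd (fun v => (val v).1) σ v → ∀ c w,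
      G.edge v c w → (G.eve v → (c, w) = σ.move [] v) → w ∈ Z ∧ (val w).1 ⊆ der c (val v).1 ∧
        ∀ p : Play G, p.v 0 = w → (σ.shiftL [(v, c)]).Follows p → p.c ∈ der c (val v).1 := by
    intro σ v hσ c w he h0
    have h1 : ∀ p : Play G, p.v 0 = w → (σ.shiftL [(v, c)]).Follows p →
        p.c ∈ der c (val v).1 := by
      rintro p rfl hf
      rcases hσ (consPlay p he) rfl (consPlay_follows p he h0 hf) with ⟨n, hn⟩ | h
      · exact hn.elim
      · exact h
    obtain ⟨u, hu⟩ := (val v).2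
    have h2 : der c (val v).1 = resid W (u ++ [c]) := by rw [hu, der_resid]
    have h3 : Wins G (resid W (u ++ [c])) w := by
      rw [← h2]
      exact ⟨_, h1⟩
    have hw : w ∈ Z := ⟨_, h3⟩
    refine ⟨hw, ?_, h1⟩
    rw [h2]
    exact (hval w hw).2 _ h3
  have hwin : ∀ v, v ∈ Z → ∃ σ, WinsBy G nd (fun v => (val v).1) σ v := by
    intro v hv
    obtain ⟨σ, hσ⟩ := (hval v hv).1
    exact ⟨σ, fun p hp0 hf => Or.inr (hσ p hp0 hf)⟩
  let edge' : G.V → S → G.V → Prop := fun v c w => G.edge v c w ∧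
    (v ∈ Z → w ∈ Z ∧ (val w).1 ⊆ der c (val v).1)
  let done' : G.V → S → G.V → Prop := fun v c w => v ∉ Z ∨ (val w).1 ≠ der c (val v).1
  have htot : ∀ v, ∃ c w, edge' v c w := by
    intro v
    by_cases hv : v ∈ Z
    · obtain ⟨σ, hσ⟩ := hwin v hv
      by_cases hev : G.eve v
      · obtain ⟨h1, h2, -⟩ := hkey σ v hσ _ _ (σ.legal [] v hev) fun _ => rfl
        exact ⟨_, _, σ.legal [] v hev, fun _ => ⟨h1, h2⟩⟩
      · obtain ⟨c, w, he⟩ := G.total v
        obtain ⟨h1, h2, -⟩ := hkey σ v hσ c w he fun h => absurd h hev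
        exact ⟨c, w, he, fun _ => ⟨h1, h2⟩⟩
    · obtain ⟨c, w, he⟩ := G.total v
      exact ⟨c, w, he, fun h => absurd h hv⟩
  have hlab' : ∀ v c w, edge' v c w → ¬ done' v c w →
      (residAut W hfin).δ (val v) c = some (val w) := by
    intro v c w he hd
    have hd' : ¬ (v ∉ Z ∨ (val w).1 ≠ der c (val v).1) := hd
    push Not at hd'
    exact congrArg some (Subtype.ext hd'.2.symm)
  have hpos : PosWin G nd fun v => (val v).1 := by
    refine posWin_of_refine Z edge' htot done' (fun v => (val v).1)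
      (residAut_P hB hW hfin (G.withEdges edge' htot) done' val hlab') ?_ ?_ ?_ ?_
      (fun v _ => le_rfl) ?_
    · rintro v ⟨σ, hσ⟩
      obtain ⟨u, hu⟩ := (val v).2
      refine ⟨u, σ, fun p hp0 hf => ?_⟩
      rw [← hu]
      rcases hσ p hp0 hf with ⟨n, hn⟩ | h
      · exact hn.elim
      · exact h
    · intro v hv
      obtain ⟨σ, hσ⟩ := hwin v hv
      refine winsL_of_goodAt (G := G)
        (fun σ v => v ∈ Z ∧ WinsBy G nd (fun v => (val v).1) σ v) ?_ ?_ ?_ ?_ ⟨hv, hσ⟩
      · rintro σ v ⟨hv, hσ⟩ hev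
        obtain ⟨h1, h2, h3⟩ := hkey σ v hσ _ _ (σ.legal [] v hev) fun _ => rfl
        refine ⟨⟨σ.legal [] v hev, fun _ => ⟨h1, h2⟩⟩, ?_⟩
        by_cases h4 : (val (σ.move [] v).2).1 = der (σ.move [] v).1 (val v).1
        · right
          refine ⟨h1, fun p hp0 hf => Or.inr ?_⟩
          show p.c ∈ (val (σ.move [] v).2).1
          rw [h4]
          exact h3 p hp0 hf
        · exact Or.inl (Or.inr h4)
      · rintro σ v ⟨hv, hσ⟩ hev c w he
        obtain ⟨h1, h2, h3⟩ := hkey σ v hσ c w he.1 fun h => absurd h hev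
        by_cases h4 : (val w).1 = der c (val v).1
        · right
          refine ⟨h1, fun p hp0 hf => Or.inr ?_⟩
          show p.c ∈ (val w).1
          rw [h4]
          exact h3 p hp0 hf
        · exact Or.inl (Or.inr h4)
      · intro σ v _ c w he
        exact he.1
      · rintro σ v ⟨hv, hσ⟩ p hp0 hf _ _
        rcases hσ p hp0 hf with ⟨n, hn⟩ | h
        · exact hn.elim
        · exact h
    · intro v hv c w he
      exact ⟨he.1, Or.inr (he.2 hv)⟩
    · intro v hv hev c w he
      obtain ⟨σ, hσ⟩ := hwin v hv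
      obtain ⟨h1, h2, -⟩ := hkey σ v hσ c w he fun h => absurd h hev
      exact ⟨he, fun _ => ⟨h1, h2⟩⟩
    · intro p _ hpZ hedge _ hfr
      by_contra hcon
      let f : ℕ → {R : Set (ℕ → S) // ∃ u, R = resid W u} := fun n =>
        Nat.rec (val (p.v 0)) (fun n R => ⟨der (p.c n) R.1, by
          obtain ⟨u, hu⟩ := R.2
          exact ⟨u ++ [p.c n], by rw [hu, der_resid]⟩⟩) n
      have hpath : (residAut W hfin).Path f p.c := fun n => rfl
      have hle : ∀ n, (val (p.v n)).1 ⊆ (f n).1 := by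
        intro n
        induction n with
        | zero => exact le_rfl
        | succ n ih => exact ((hedge n).2 (hpZ n)).2.trans (der_mono ih)
      have hE : ∃ᶠ n in atTop, (val (p.v (n + 1))).1 ≠ der (p.c n) (val (p.v n)).1 :=
        hfr.mono fun n hn => hn.resolve_left fun h => h (hpZ n)
      have hfinR : Finite {R : Set (ℕ → S) // ∃ u, R = resid W u} := (residAut W hfin).fin
      obtain ⟨t, -, hEt, ht⟩ := path_loops hB (residAut W hfin) hpath (fun n => val (p.v n))
        (fun n => (val (p.v (n + 1))).1 ≠ der (p.c n) (val (p.v n)).1) hE 0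
      obtain ⟨n, -, hn1, -, hγ, -, hrep⟩ := ht 1
      obtain ⟨m, rfl⟩ : ∃ m, n = 1 + m := ⟨n - 1, by omega⟩
      have hX : seg p.c t (1 + m) = [p.c t] ++ seg p.c (t + 1) m := by
        rw [seg_add]
        rfl
      have hsub : ∀ i, (val (p.v (t + 1 + i))).1 ⊆
          resid (val (p.v (t + 1))).1 (seg p.c (t + 1) i) := by
        intro i
        induction i with
        | zero => exact le_rfl
        | succ i ih =>
          rw [seg, ← der_resid]
          exact ((hedge (t + 1 + i)).2 (hpZ _)).2.trans (der_mono ih)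
      have hVeq : val (p.v (t + 1 + m)) = val (p.v t) := by
        rw [Nat.add_assoc]
        exact hγ
      have hsub0 : (val (p.v (t + 1))).1 ⊆ der (p.c t) (val (p.v t)).1 :=
        ((hedge t).2 (hpZ t)).2
      obtain ⟨z, hz1, hz2⟩ : ∃ z, z ∈ der (p.c t) (val (p.v t)).1 ∧
          z ∉ (val (p.v (t + 1))).1 := by
        by_contra hno
        push Not at hno
        exact hEt (Set.Subset.antisymm hsub0 hno)
      have h1 : cons (p.c t) z ∈ (val (p.v (t + 1 + m))).1 := by
        rw [hVeq]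
        exact hz1
      have h2 : pre (seg p.c (t + 1) m ++ [p.c t]) z ∈ (val (p.v (t + 1))).1 := by
        rw [pre_append]
        exact hsub m h1
      have h3 : rep (seg p.c (t + 1) m ++ [p.c t]) ∈ (val (p.v (t + 1))).1 := by
        obtain ⟨u, hu⟩ := (val (p.v (t + 1))).2
        rw [hu] at h2 hz2 ⊢
        exact progress hW (by simp) hz2 h2
      have h4 : rep (seg p.c t (1 + m)) ∈ (f t).1 := by
        rw [hX, rep_rotate (by simp)]
        exact hle t (hsub0 h3)
      exact hcon (hrep.1 h4)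
  obtain ⟨ch, hch1, hch2⟩ := hpos
  refine ⟨ch, hch1, fun p hp hf => ?_⟩
  have hZ0 : p.v 0 ∈ Z := ⟨[], hp⟩
  rcases hch2 p (hwin _ hZ0) hf with ⟨n, hn⟩ | h1
  · exact hn.elim
  · exact (hval _ hZ0).2 [] hp h1

/-- The one-to-two-player lift of positional strategies. -/
theorem suffices_all [Finite S] (hreg : OmegaRegular W) (hW : Suffices OnePlayer W 1) :
    Suffices AllGames W 1 := by
  intro G _
  obtain ⟨B, hBfin, hBW⟩ := hreg
  have hB : W = B.lang B.start := Set.ext hBW
  rcases isEmpty_or_nonempty S with hS | hS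
  · have hV : ∀ v : G.V, False := by
      intro v
      obtain ⟨c, -⟩ := G.total v
      exact hS.false c
    let s : Chromatic G 1 :=
      { mem := { start := 0, upd := fun _ _ => 0 }
        choice := fun v => (hV v).elim
        legal := fun v => (hV v).elim }
    exact ⟨s, fun p => (hV (p.v 0)).elim⟩
  · obtain ⟨ch, hch1, hch2⟩ := positional_top hB hW G
    let s : Chromatic G 1 :=
      { mem := { start := 0, upd := fun _ _ => 0 }
        choice := fun v _ => ch v
        legal := fun v _ => hch1 v }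
    exact ⟨s, fun p hp hf => hch2 p hp hf⟩

end Pool.Agent.R573.CU
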