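import Pool.Agent.R573.PL.Safe

/-!
# The states of the refined automaton

A state is a pair of a state of the automaton and the follower set of a stable word.
-/

set_option autoImplicit false

namespace Pool.Agent.R573.CU

open Filter

variable {S : Type} {W : Set (ℕ → S)} [Nonempty S] {A : LAut W}

/-- A pair of a state and the follower set of a stable word which leads to it. -/
def IsState (A : LAut W) (x : A.Q × Set (List S)) : Prop :=
  ∃ q₀ u, A.Stable q₀ u ∧ A.go q₀ u = some x.1 ∧ x.2 = A.Fol q₀ u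

/-- The quotient of a set of words. -/
def quo (u : List S) (F : Set (List S)) : Set (List S) := {v | u ++ v ∈ F}

omit [Nonempty S] in
theorem quo_append (u v : List S) (F : Set (List S)) : quo (u ++ v) F = quo v (quo u F) := by
  ext z
  show u ++ v ++ z ∈ F ↔ u ++ (v ++ z) ∈ F
  rw [List.append_assoc]

omit [Nonempty S] in
theorem quo_mono {u : List S} {F F' : Set (List S)} (h : F ⊆ F') : quo u F ⊆ quo u F' :=
  fun _ hv => h hv

theorem quo_Fol (q : A.Q) (u v : List S) : quo v (A.Fol q u) = A.Fol q (u ++ v) := by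
  ext z
  show A.K q (u ++ (v ++ z)) ↔ A.K q (u ++ v ++ z)
  rw [List.append_assoc]

theorem IsState.nil_mem {x : A.Q × Set (List S)} (h : IsState A x) : [] ∈ x.2 := by
  obtain ⟨q₀, u, hu, -, hF⟩ := h
  rw [hF]
  show A.K q₀ (u ++ [])
  rw [List.append_nil]
  exact hu.1

theorem IsState.prefix_mem {x : A.Q × Set (List S)} (h : IsState A x) {u v : List S}
    (huv : u ++ v ∈ x.2) : u ∈ x.2 := by
  obtain ⟨q₀, y, hy, -, hF⟩ := h
  rw [hF] at huv ⊢
  have h1 : A.K q₀ (y ++ (u ++ v)) := huv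
  rw [← List.append_assoc] at h1
  exact K_prefix h1

theorem IsState.go {x : A.Q × Set (List S)} (h : IsState A x) {v : List S} (hv : v ∈ x.2) :
    ∃ q', A.go x.1 v = some q' ∧ IsState A (q', quo v x.2) := by
  obtain ⟨q₀, u, hu, hgo, hF⟩ := h
  rw [hF] at hv
  have h1 : A.K q₀ (u ++ v) := hv
  obtain ⟨q', h2⟩ := K_go h1
  obtain ⟨q1, h3, h4⟩ := go_append.1 h2
  rw [hgo] at h3
  cases h3
  refine ⟨q', h4, q₀, u ++ v, stable_right hu h1, h2, ?_⟩
  show quo v x.2 = _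
  rw [hF, quo_Fol]

theorem IsState.K {x : A.Q × Set (List S)} (h : IsState A x) {v : List S} (hv : v ∈ x.2) :
    A.K x.1 v := by
  obtain ⟨q₀, u, hu, hgo, hF⟩ := h
  rw [hF] at hv
  exact K_factor hv hgo

/-- Each transition lies on a cycle. -/
theorem IsState.back {x : A.Q × Set (List S)} (h : IsState A x) {v : List S} (hv : v ∈ x.2) :
    ∃ y, v ++ y ∈ x.2 ∧ A.go x.1 (v ++ y) = some x.1 ∧ quo (v ++ y) x.2 = x.2 := by
  obtain ⟨q₀, u, hu, hgo, hF⟩ := h
  rw [hF] at hv ⊢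
  obtain ⟨s, h1, h2, h3⟩ : A.K q₀ (u ++ v) := hv
  have h1' : u ++ (v ++ s) ≠ [] := by
    rw [← List.append_assoc]
    exact h1
  have h2' : A.go q₀ (u ++ (v ++ s)) = some q₀ := by
    rw [← List.append_assoc]
    exact h2
  have h3' : rep (u ++ (v ++ s)) ∈ A.ρ q₀ := by
    rw [← List.append_assoc]
    exact h3
  have hK : A.K q₀ (u ++ (v ++ s) ++ u) := K_double h1' h2' h3'
  have h4 : u ++ (v ++ (s ++ u)) = u ++ (v ++ s) ++ u := by simp
  refine ⟨s ++ u, ?_, ?_, ?_⟩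
  · show A.K q₀ (u ++ (v ++ (s ++ u)))
    rw [h4]
    exact hK
  · obtain ⟨q1, h5, h6⟩ := go_append.1 h2'
    rw [hgo] at h5
    cases h5
    rw [← List.append_assoc]
    exact go_append.2 ⟨q₀, h6, hgo⟩
  · rw [quo_Fol, h4]
    exact Set.Subset.antisymm (Fol_antitone h2') (hu.2 q₀ _ h2' hK)

section

variable [Finite S] {B : Parity S} [Finite B.Q] (hB : W = B.lang B.start)

include hB in
/-- Every word on a winning loop can be read from a state. -/
theorem exists_isState {q : A.Q} {v : List S} (h : A.K q v) :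
    ∃ F, IsState A (q, F) ∧ v ∈ F := by
  obtain ⟨q1, z, hz, hst⟩ := exists_stable hB h
  obtain ⟨s, h1, h2, h3⟩ := hst.1
  have hK : A.K q1 (z ++ v ++ s ++ (z ++ v)) := K_double h1 h2 h3
  have h4 : z ++ v ++ s ++ (z ++ v) = z ++ v ++ (s ++ z) ++ v := by simp
  rw [h4] at hK
  refine ⟨A.Fol q1 (z ++ v ++ (s ++ z)), ⟨q1, z ++ v ++ (s ++ z), stable_right hst (K_prefix hK), ?_,
    rfl⟩, hK⟩
  have h5 : z ++ v ++ (s ++ z) = z ++ v ++ s ++ z := by simp
  rw [h5]
  exact go_append.2 ⟨q1, h2, hz⟩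

/-- The set of the states is finite. -/
theorem finite_isState (A : LAut W) (hB : W = B.lang B.start) :
    {x : A.Q × Set (List S) | IsState A x}.Finite := by
  have hA := A.fin
  refine (Set.finite_univ.prod (finite_Fol hB A)).subset ?_
  rintro ⟨q, F⟩ ⟨q₀, u, -, -, hF⟩
  exact ⟨trivial, (q₀, u), hF.symm⟩

end

/-- Follower sets in the same component over the same state are comparable. -/
theorem IsState.total (hW : Suffices OnePlayer W 1) {x : A.Q × Set (List S)} (h : IsState A x)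
    {p : List S} (hp : p ∈ x.2) (hgp : A.go x.1 p = some x.1) :
    x.2 ⊆ quo p x.2 ∨ quo p x.2 ⊆ x.2 := by
  by_contra hcon
  push Not at hcon
  obtain ⟨hc1, hc2⟩ := hcon
  obtain ⟨v, hv, hv'⟩ := Set.not_subset.1 hc1
  obtain ⟨v', hvp, hvp'⟩ := Set.not_subset.1 hc2
  obtain ⟨y₁, hy1, hy2, hy3⟩ := h.back hv
  obtain ⟨q₀, u, hu, hgo, hF⟩ := h
  obtain ⟨q, F⟩ := x
  dsimp only at *
  subst hF
  -- the second state is given by the stable word `u ++ p`
  have hup : A.Stable q₀ (u ++ p) := stable_right hu hp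
  have hgup : A.go q₀ (u ++ p) = some q := go_append.2 ⟨q, hgo, hgp⟩
  obtain ⟨s', h1, h2, h3⟩ := hup.1
  have hgs' : A.go q s' = some q₀ := by
    obtain ⟨q1, h4, h5⟩ := go_append.1 h2
    rw [hgup] at h4
    cases h4
    exact h5
  -- the word which leads through both states
  have hK1 : A.K q₀ (u ++ (v ++ y₁ ++ p ++ (s' ++ (u ++ p)) ++ v')) := by
    have h4 : A.K q₀ (u ++ p ++ s' ++ (u ++ p)) := K_double h1 h2 h3
    have h5 : A.Fol q₀ (u ++ p) ⊆ A.Fol q₀ (u ++ p ++ s' ++ (u ++ p)) :=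
      hup.2 q₀ (u ++ p ++ s') h2 h4
    have h6 : v' ∈ A.Fol q₀ (u ++ p) := by
      rw [← quo_Fol]
      exact hvp
    have h7 : A.K q₀ (u ++ p ++ s' ++ (u ++ p) ++ v') := h5 h6
    have h8 : p ++ (s' ++ (u ++ p) ++ v') ∈ quo (v ++ y₁) (A.Fol q₀ u) := by
      rw [hy3]
      show A.K q₀ (u ++ (p ++ (s' ++ (u ++ p) ++ v')))
      have h9 : u ++ (p ++ (s' ++ (u ++ p) ++ v')) = u ++ p ++ s' ++ (u ++ p) ++ v' := by simp
      rw [h9]
      exact h7
    have h9 : A.K q₀ (u ++ (v ++ y₁ ++ (p ++ (s' ++ (u ++ p) ++ v')))) := h8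
    have h10 : u ++ (v ++ y₁ ++ p ++ (s' ++ (u ++ p)) ++ v') =
        u ++ (v ++ y₁ ++ (p ++ (s' ++ (u ++ p) ++ v'))) := by simp
    rw [h10]
    exact h9
  obtain ⟨s, hs1, hs2, hs3⟩ := hK1
  set X := v ++ y₁ ++ p ++ (s' ++ (u ++ p)) with hX
  have hgX : A.go q X = some q := by
    rw [hX]
    exact go_append.2 ⟨q, go_append.2 ⟨q, hy2, hgp⟩, go_append.2 ⟨q₀, hgs', hgup⟩⟩
  have hgY : A.go q (v' ++ s) = some q₀ := by
    have h4 : u ++ (X ++ v') ++ s = u ++ (X ++ (v' ++ s)) := by simp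
    rw [h4] at hs2
    obtain ⟨q1, h5, h6⟩ := go_append.1 hs2
    rw [hgo] at h5
    cases h5
    obtain ⟨q2, h7, h8⟩ := go_append.1 h6
    rw [hgX] at h7
    cases h7
    exact h8
  have hpne : v' ≠ [] := by
    rintro rfl
    apply hvp'
    show A.K q₀ (u ++ [])
    rw [List.append_nil]
    exact hu.1
  have hvne : v ≠ [] := by
    rintro rfl
    apply hv'
    show A.K q₀ (u ++ (p ++ []))
    rw [List.append_nil]
    exact hp
  have hXne : X ≠ [] := by
    rw [hX]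
    simp [hvne]
  have hYne : v' ++ s ++ u ≠ [] := by simp [hpne]
  have hXY : rep (X ++ (v' ++ s ++ u)) ∈ A.ρ q := by
    have h4 : u ++ (X ++ v') ++ s = u ++ (X ++ v' ++ s) := by simp
    rw [h4] at hs1 hs3
    have h5 := (rotate_mem hs1 hgo).1 hs3
    have h6 : X ++ v' ++ s ++ u = X ++ (v' ++ s ++ u) := by simp
    rw [h6] at h5
    exact h5
  obtain ⟨e, he⟩ := A.hres q
  have hor : rep X ∈ A.ρ q ∨ rep (v' ++ s ++ u) ∈ A.ρ q := by
    rw [he] at hXY ⊢
    exact loops_closed hW hXne hYne hXY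
  rcases hor with h4 | h4
  · -- the loop `X`
    apply hv'
    show A.K q₀ (u ++ (p ++ v))
    have h5 : X = v ++ y₁ ++ p ++ s' ++ (u ++ p) := by
      rw [hX]
      simp
    rw [h5] at h4
    have h6 := (rotate_mem (by simp [hvne]) hgup).2 h4
    refine ⟨y₁ ++ p ++ s', by simp [hvne], ?_, ?_⟩
    · have h7 : u ++ (p ++ v) ++ (y₁ ++ p ++ s') = (u ++ p) ++ ((v ++ y₁) ++ p ++ s') := by simp
      rw [h7]
      exact go_append.2 ⟨q, hgup, go_append.2 ⟨q, go_append.2 ⟨q, hy2, hgp⟩, hgs'⟩⟩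
    · have h7 : u ++ (p ++ v) ++ (y₁ ++ p ++ s') = (u ++ p) ++ (v ++ y₁ ++ p ++ s') := by simp
      rw [h7]
      exact h6
  · apply hvp'
    show A.K q₀ (u ++ v')
    have h6 := (rotate_mem (u := u) (v := v' ++ s) (by simp [hpne]) hgo).2 h4
    refine ⟨s, by simp [hpne], ?_, ?_⟩
    · rw [List.append_assoc]
      exact go_append.2 ⟨q, hgo, hgY⟩
    · rw [List.append_assoc]
      exact h6

/-- Progress: a loop which enlarges the follower set is winning. -/
theorem IsState.prog (hW : Suffices OnePlayer W 1) {x : A.Q × Set (List S)} (h : IsState A x)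
    {Y v : List S} (hY : Y ≠ []) (hgY : A.go x.1 Y = some x.1) (hv : Y ++ v ∈ x.2)
    (hv' : v ∉ x.2) : rep Y ∈ A.ρ x.1 := by
  have hvne : v ≠ [] := by
    rintro rfl
    exact hv' h.nil_mem
  obtain ⟨q₀, u, hu, hgo, hF⟩ := h
  obtain ⟨q, F⟩ := x
  dsimp only at *
  subst hF
  obtain ⟨s, h1, h2, h3⟩ : A.K q₀ (u ++ (Y ++ v)) := hv
  have hgs : A.go q (v ++ s) = some q₀ := by
    have h4 : u ++ (Y ++ v) ++ s = u ++ (Y ++ (v ++ s)) := by simp
    rw [h4] at h2
    obtain ⟨q1, h5, h6⟩ := go_append.1 h2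
    rw [hgo] at h5
    cases h5
    obtain ⟨q2, h7, h8⟩ := go_append.1 h6
    rw [hgY] at h7
    cases h7
    exact h8
  have hXY : rep (Y ++ (v ++ s ++ u)) ∈ A.ρ q := by
    have h4 : u ++ (Y ++ v) ++ s = u ++ (Y ++ v ++ s) := by simp
    rw [h4] at h1 h3
    have h5 := (rotate_mem h1 hgo).1 h3
    have h6 : Y ++ v ++ s ++ u = Y ++ (v ++ s ++ u) := by simp
    rw [h6] at h5
    exact h5
  obtain ⟨e, he⟩ := A.hres q
  have hor : rep Y ∈ A.ρ q ∨ rep (v ++ s ++ u) ∈ A.ρ q := by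
    rw [he] at hXY ⊢
    exact loops_closed hW hY (by simp [hvne]) hXY
  rcases hor with h4 | h4
  · exact h4
  · exfalso
    apply hv'
    show A.K q₀ (u ++ v)
    have h6 := (rotate_mem (u := u) (v := v ++ s) (by simp [hvne]) hgo).2 h4
    refine ⟨s, by simp [hvne], ?_, ?_⟩
    · rw [List.append_assoc]
      exact go_append.2 ⟨q, hgo, hgs⟩
    · rw [List.append_assoc]
      exact h6

end Pool.Agent.R573.CU
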